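import Mathlib

section
/-!
Calculus in the space-time strip for periodic solutions of `u_t = u_xxx + u_x^2 + u^2`.
-/
set_option autoImplicit false

namespace Pool.Agent.Lib.MP_b879c5_an

open Set MeasureTheory intervalIntegral
open scoped Topology ContDiff

/-- The open space-time strip `(0,T) × ℝ`. -/
def Om (T : ℝ) : Set (ℝ × ℝ) := Ioo 0 T ×ˢ univ

lemma isOpen_Om (T : ℝ) : IsOpen (Om T) := isOpen_Ioo.prod isOpen_univ

lemma mem_Om {T t x : ℝ} : (t, x) ∈ Om T ↔ t ∈ Ioo 0 T := by simp [Om]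

/-- Space derivative. -/
noncomputable def Dx (G : ℝ × ℝ → ℝ) (p : ℝ × ℝ) : ℝ := fderiv ℝ G p (0, 1)

/-- Time derivative. -/
noncomputable def Dt (G : ℝ × ℝ → ℝ) (p : ℝ × ℝ) : ℝ := fderiv ℝ G p (1, 0)

/-- Smooth functions in the strip. -/
def Sm (T : ℝ) (G : ℝ × ℝ → ℝ) : Prop := ContDiffOn ℝ ∞ G (Om T)

lemma Sm.dx {T : ℝ} {G : ℝ × ℝ → ℝ} (h : Sm T G) : Sm T (Dx G) := by
  have h1 : ContDiffOn ℝ ∞ (fderiv ℝ G) (Om T) :=
    h.fderiv_of_isOpen (isOpen_Om T) (by simp)
  exact h1.clm_apply contDiffOn_const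

lemma Sm.dt {T : ℝ} {G : ℝ × ℝ → ℝ} (h : Sm T G) : Sm T (Dt G) := by
  have h1 : ContDiffOn ℝ ∞ (fderiv ℝ G) (Om T) :=
    h.fderiv_of_isOpen (isOpen_Om T) (by simp)
  exact h1.clm_apply contDiffOn_const

lemma Sm.differentiableAt {T : ℝ} {G : ℝ × ℝ → ℝ} (h : Sm T G) {t x : ℝ} (ht : t ∈ Ioo 0 T) :
    DifferentiableAt ℝ G (t, x) := by
  have h1 : ContDiffAt ℝ ∞ G (t, x) := h.contDiffAt ((isOpen_Om T).mem_nhds (mem_Om.mpr ht))
  exact h1.differentiableAt (by simp)

lemma Sm.hasDerivAt_x {T : ℝ} {G : ℝ × ℝ → ℝ} (h : Sm T G) {t : ℝ} (ht : t ∈ Ioo 0 T) (x : ℝ) :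
    HasDerivAt (fun y => G (t, y)) (Dx G (t, x)) x := by
  have h1 := (h.differentiableAt (x := x) ht).hasFDerivAt
  have h2 : HasDerivAt (fun y : ℝ => (t, y)) ((0 : ℝ), (1 : ℝ)) x :=
    (hasDerivAt_const x t).prodMk (hasDerivAt_id x)
  exact h1.comp_hasDerivAt x h2

lemma Sm.hasDerivAt_t {T : ℝ} {G : ℝ × ℝ → ℝ} (h : Sm T G) {t : ℝ} (ht : t ∈ Ioo 0 T) (x : ℝ) :
    HasDerivAt (fun s => G (s, x)) (Dt G (t, x)) t := by
  have h1 := (h.differentiableAt (x := x) ht).hasFDerivAt
  have h2 : HasDerivAt (fun s : ℝ => (s, x)) ((1 : ℝ), (0 : ℝ)) t :=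
    (hasDerivAt_id t).prodMk (hasDerivAt_const t x)
  exact h1.comp_hasDerivAt t h2

lemma Sm.comm {T : ℝ} {G : ℝ × ℝ → ℝ} (h : Sm T G) {t : ℝ} (ht : t ∈ Ioo 0 T) (x : ℝ) :
    Dt (Dx G) (t, x) = Dx (Dt G) (t, x) := by
  have hc : ContDiffAt ℝ ∞ G (t, x) := h.contDiffAt ((isOpen_Om T).mem_nhds (mem_Om.mpr ht))
  have hs : IsSymmSndFDerivAt ℝ G (t, x) := hc.isSymmSndFDerivAt (by simp; exact ENat.LEInfty.out)
  have hd : DifferentiableAt ℝ (fderiv ℝ G) (t, x) := by
    have h1 : ContDiffAt ℝ ∞ (fderiv ℝ G) (t, x) := hc.fderiv_right (by simp)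
    exact h1.differentiableAt (by simp)
  have h1 : ∀ v w : ℝ × ℝ, fderiv ℝ (fun p => fderiv ℝ G p v) (t, x) w
      = fderiv ℝ (fderiv ℝ G) (t, x) w v := by
    intro v w
    rw [fderiv_clm_apply hd (differentiableAt_const v)]
    simp
  show fderiv ℝ (fun p => fderiv ℝ G p (0, 1)) (t, x) (1, 0)
    = fderiv ℝ (fun p => fderiv ℝ G p (1, 0)) (t, x) (0, 1)
  rw [h1, h1]
  exact hs.eq (1, 0) (0, 1)

lemma Sm.continuous_x {T : ℝ} {G : ℝ × ℝ → ℝ} (h : Sm T G) {t : ℝ} (ht : t ∈ Ioo 0 T) :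
    Continuous (fun y => G (t, y)) := by
  rw [continuous_iff_continuousAt]
  exact fun x => (h.hasDerivAt_x ht x).continuousAt

/-- Periodicity in space with period `2π`. -/
def Per (T : ℝ) (G : ℝ × ℝ → ℝ) : Prop :=
  ∀ t ∈ Ioo 0 T, ∀ x, G (t, x + 2 * Real.pi) = G (t, x)

lemma Per.dx {T : ℝ} {G : ℝ × ℝ → ℝ} (h : Sm T G) (hp : Per T G) : Per T (Dx G) := by
  intro t ht x
  have h1 := (h.hasDerivAt_x ht (x + 2 * Real.pi)).comp_add_const x (2 * Real.pi)
  have h2 : (fun y => G (t, y + 2 * Real.pi)) = fun y => G (t, y) := by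
    funext y; exact hp t ht y
  rw [h2] at h1
  exact h1.unique (h.hasDerivAt_x ht x)

lemma Per.ends {T : ℝ} {G : ℝ × ℝ → ℝ} (hp : Per T G) {t : ℝ} (ht : t ∈ Ioo 0 T) :
    G (t, 2 * Real.pi) = G (t, 0) := by
  have := hp t ht 0
  rwa [zero_add] at this

/-- Differentiation under the integral sign. -/
lemma Sm.hasDerivAt_integral {T : ℝ} {G : ℝ × ℝ → ℝ} (h : Sm T G) {t : ℝ} (ht : t ∈ Ioo 0 T) :
    HasDerivAt (fun s => ∫ x in (0)..(2 * Real.pi), G (s, x))
      (∫ x in (0)..(2 * Real.pi), Dt G (t, x)) t := by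
  obtain ⟨ht0, htT⟩ := ht
  set ε := min t (T - t) / 2 with hε
  have hεpos : 0 < ε := by
    have : 0 < min t (T - t) := lt_min ht0 (by linarith)
    positivity
  have hball : ∀ s ∈ Metric.ball t ε, s ∈ Icc (t - ε) (t + ε) := by
    intro s hs
    rw [Metric.mem_ball, Real.dist_eq, abs_lt] at hs
    exact ⟨by linarith [hs.1], by linarith [hs.2]⟩
  have hIcc : ∀ s ∈ Icc (t - ε) (t + ε), s ∈ Ioo 0 T := by
    intro s hs
    have h1 : min t (T - t) ≤ t := min_le_left _ _
    have h2 : min t (T - t) ≤ T - t := min_le_right _ _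
    have h3 : 0 < min t (T - t) := lt_min ht0 (by linarith)
    exact ⟨by linarith [hs.1], by linarith [hs.2]⟩
  have hK : IsCompact (Icc (t - ε) (t + ε) ×ˢ Icc 0 (2 * Real.pi)) :=
    isCompact_Icc.prod isCompact_Icc
  have hcont : ContinuousOn (Dt G) (Icc (t - ε) (t + ε) ×ˢ Icc 0 (2 * Real.pi)) := by
    refine h.dt.continuousOn.mono ?_
    rintro ⟨s, x⟩ ⟨hs, _⟩
    exact mem_Om.mpr (hIcc s hs)
  obtain ⟨C, hC⟩ := hK.exists_bound_of_continuousOn hcont
  have hpi : (0:ℝ) ≤ 2 * Real.pi := by positivity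
  refine (intervalIntegral.hasDerivAt_integral_of_dominated_loc_of_deriv_le
    (F := fun s x => G (s, x)) (F' := fun s x => Dt G (s, x)) (bound := fun _ => C)
    (Metric.ball_mem_nhds t hεpos) ?_ ?_ ?_ ?_ ?_ ?_).2
  · filter_upwards [Metric.ball_mem_nhds t hεpos] with s hs
    exact (h.continuous_x (hIcc s (hball s hs))).aestronglyMeasurable
  · exact (h.continuous_x ⟨ht0, htT⟩).intervalIntegrable _ _
  · exact (h.dt.continuous_x ⟨ht0, htT⟩).aestronglyMeasurable
  · refine Filter.Eventually.of_forall fun x hx s hs => ?_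
    rw [uIoc_of_le hpi] at hx
    exact hC (s, x) ⟨hball s hs, ⟨hx.1.le, hx.2⟩⟩
  · exact intervalIntegrable_const
  · refine Filter.Eventually.of_forall fun x _ s hs => ?_
    exact h.hasDerivAt_t (hIcc s (hball s hs)) x

end Pool.Agent.Lib.MP_b879c5_an
end

section
/-!
Evolution identities for `∫ u`, `∫ u_x^2`, `∫ u^2`, and elementary inequalities.
-/
set_option autoImplicit false

namespace Pool.Agent.Lib.MP_b879c5_an

open Set MeasureTheory
open scoped Topology ContDiff

/-- Smooth periodic solutions in the strip. -/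
structure Sol (T : ℝ) (U : ℝ × ℝ → ℝ) : Prop where
  sm : Sm T U
  per : Per T U
  pde : ∀ t ∈ Ioo 0 T, ∀ x,
    Dt U (t, x) = Dx (Dx (Dx U)) (t, x) + (Dx U (t, x)) ^ 2 + (U (t, x)) ^ 2

/-- `∫ u`. -/
noncomputable def mI (U : ℝ × ℝ → ℝ) (t : ℝ) : ℝ := ∫ x in (0)..(2 * Real.pi), U (t, x)
/-- `∫ u_x^2`. -/
noncomputable def II (U : ℝ × ℝ → ℝ) (t : ℝ) : ℝ :=
  ∫ x in (0)..(2 * Real.pi), (Dx U (t, x)) ^ 2
/-- `∫ u^2`. -/
noncomputable def JI (U : ℝ × ℝ → ℝ) (t : ℝ) : ℝ := ∫ x in (0)..(2 * Real.pi), (U (t, x)) ^ 2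

variable {T : ℝ} {U : ℝ × ℝ → ℝ}

lemma integral_total {f f' : ℝ → ℝ} (h : ∀ x, HasDerivAt f (f' x) x) (hc : Continuous f')
    (hf : f (2 * Real.pi) = f 0) : ∫ x in (0)..(2 * Real.pi), f' x = 0 := by
  rw [intervalIntegral.integral_eq_sub_of_hasDerivAt (fun x _ => h x) (hc.intervalIntegrable _ _), hf, sub_self]

lemma Sol.hasDerivAt_m (h : Sol T U) {t : ℝ} (ht : t ∈ Ioo 0 T) :
    HasDerivAt (mI U) (II U t + JI U t) t := by
  have h1 := h.sm.hasDerivAt_integral ht
  have hc0 := h.sm.continuous_x ht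
  have hc1 := h.sm.dx.continuous_x ht
  have hc3 := h.sm.dx.dx.dx.continuous_x ht
  have h2 : ∫ x in (0)..(2 * Real.pi), Dt U (t, x) = II U t + JI U t := by
    have h3 : ∀ x, Dt U (t, x) = Dx (Dx (Dx U)) (t, x) + ((Dx U (t, x)) ^ 2 + (U (t, x)) ^ 2) := by
      intro x; rw [h.pde t ht x]; ring
    simp_rw [h3]
    have i1 : IntervalIntegrable (fun x => (Dx U (t, x)) ^ 2) volume 0 (2 * Real.pi) :=
      (hc1.pow 2).intervalIntegrable _ _
    have i0 : IntervalIntegrable (fun x => (U (t, x)) ^ 2) volume 0 (2 * Real.pi) :=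
      (hc0.pow 2).intervalIntegrable _ _
    rw [intervalIntegral.integral_add (hc3.intervalIntegrable _ _) (i1.add i0),
      intervalIntegral.integral_add i1 i0,
      integral_total (f := fun x => Dx (Dx U) (t, x)) (fun x => h.sm.dx.dx.hasDerivAt_x ht x) hc3
        ((Per.dx h.sm.dx (Per.dx h.sm h.per)).ends ht)]
    simp [II, JI]
  rw [h2] at h1
  exact h1

/-- `∂_t u_x`. -/
lemma Sol.dt_dx (h : Sol T U) {t : ℝ} (ht : t ∈ Ioo 0 T) (x : ℝ) :
    Dt (Dx U) (t, x) = Dx (Dx (Dx (Dx U))) (t, x) + 2 * Dx U (t, x) * Dx (Dx U) (t, x)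
      + 2 * U (t, x) * Dx U (t, x) := by
  rw [h.sm.comm ht x]
  have h1 := h.sm.dt.hasDerivAt_x ht x
  have h2 : (fun y => Dt U (t, y)) = fun y => Dx (Dx (Dx U)) (t, y) + (Dx U (t, y)) ^ 2
      + (U (t, y)) ^ 2 := by
    funext y; exact h.pde t ht y
  rw [h2] at h1
  have h3 := ((h.sm.dx.dx.dx.hasDerivAt_x ht x).add ((h.sm.dx.hasDerivAt_x ht x).pow 2)).add
    ((h.sm.hasDerivAt_x ht x).pow 2)
  have h4 := h1.unique h3
  rw [h4]
  simp only [Nat.cast_ofNat, Nat.add_one_sub_one, pow_one]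

lemma Sol.hasDerivAt_I (h : Sol T U) {t : ℝ} (ht : t ∈ Ioo 0 T) :
    HasDerivAt (II U) (4 * ∫ x in (0)..(2 * Real.pi), U (t, x) * (Dx U (t, x)) ^ 2) t := by
  have hsm : Sm T (fun p => (Dx U p) ^ 2) := h.sm.dx.pow 2
  have h1 := hsm.hasDerivAt_integral ht
  have hc0 := h.sm.continuous_x ht
  have hc1 := h.sm.dx.continuous_x ht
  have hc2 := h.sm.dx.dx.continuous_x ht
  have hc3 := h.sm.dx.dx.dx.continuous_x ht
  have hc4 := h.sm.dx.dx.dx.dx.continuous_x ht
  have hp1 := Per.dx h.sm h.per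
  have hp2 := Per.dx h.sm.dx hp1
  have hp3 := Per.dx h.sm.dx.dx hp2
  have h2 : ∫ x in (0)..(2 * Real.pi), Dt (fun p => (Dx U p) ^ 2) (t, x)
      = 4 * ∫ x in (0)..(2 * Real.pi), U (t, x) * (Dx U (t, x)) ^ 2 := by
    have h3 : ∀ x, Dt (fun p => (Dx U p) ^ 2) (t, x) =
        (2 * (Dx U (t, x) * Dx (Dx (Dx (Dx U))) (t, x)
          + 2 * (Dx U (t, x)) ^ 2 * Dx (Dx U) (t, x))) +
          4 * (U (t, x) * (Dx U (t, x)) ^ 2) := by
      intro x
      have ha := hsm.hasDerivAt_t ht x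
      have hb := (h.sm.dx.hasDerivAt_t ht x).pow 2
      rw [ha.unique hb, h.dt_dx ht x]
      simp only [Nat.cast_ofNat, Nat.add_one_sub_one, pow_one]
      ring
    simp_rw [h3]
    rw [intervalIntegral.integral_add]
    rotate_left
    · exact (continuous_const.mul ((hc1.mul hc4).add
        ((continuous_const.mul (hc1.pow 2)).mul hc2))).intervalIntegrable _ _
    · exact (continuous_const.mul (hc0.mul (hc1.pow 2))).intervalIntegrable _ _
    rw [integral_total (f := fun x => 2 * (Dx U (t, x) * Dx (Dx (Dx U)) (t, x)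
      - (Dx (Dx U) (t, x)) ^ 2 / 2 + 2 / 3 * (Dx U (t, x)) ^ 3))]
    · rw [zero_add, intervalIntegral.integral_const_mul]
    · intro x
      have d1 := h.sm.dx.hasDerivAt_x ht x
      have d2 := h.sm.dx.dx.hasDerivAt_x ht x
      have d3 := h.sm.dx.dx.dx.hasDerivAt_x ht x
      have := (((d1.mul d3).sub ((d2.pow 2).div_const 2)).add ((d1.pow 3).const_mul (2/3))).const_mul 2
      refine HasDerivAt.congr_deriv (f := fun x => _) this ?_
      push_cast
      ring
    · exact continuous_const.mul ((hc1.mul hc4).add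
        ((continuous_const.mul (hc1.pow 2)).mul hc2))
    · simp only [hp1.ends ht, hp2.ends ht, hp3.ends ht]
  rw [h2] at h1
  exact h1

lemma Sol.hasDerivAt_J (h : Sol T U) {t : ℝ} (ht : t ∈ Ioo 0 T) :
    HasDerivAt (JI U) (2 * (∫ x in (0)..(2 * Real.pi), U (t, x) * (Dx U (t, x)) ^ 2)
      + 2 * ∫ x in (0)..(2 * Real.pi), (U (t, x)) ^ 3) t := by
  have hsm : Sm T (fun p => (U p) ^ 2) := h.sm.pow 2
  have h1 := hsm.hasDerivAt_integral ht
  have hc0 := h.sm.continuous_x ht
  have hc1 := h.sm.dx.continuous_x ht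
  have hc2 := h.sm.dx.dx.continuous_x ht
  have hc3 := h.sm.dx.dx.dx.continuous_x ht
  have hp1 := Per.dx h.sm h.per
  have hp2 := Per.dx h.sm.dx hp1
  have h2 : ∫ x in (0)..(2 * Real.pi), Dt (fun p => (U p) ^ 2) (t, x)
      = 2 * (∫ x in (0)..(2 * Real.pi), U (t, x) * (Dx U (t, x)) ^ 2)
        + 2 * ∫ x in (0)..(2 * Real.pi), (U (t, x)) ^ 3 := by
    have h3 : ∀ x, Dt (fun p => (U p) ^ 2) (t, x) =
        2 * (U (t, x) * Dx (Dx (Dx U)) (t, x)) +
          (2 * (U (t, x) * (Dx U (t, x)) ^ 2) + 2 * (U (t, x)) ^ 3) := by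
      intro x
      have ha := hsm.hasDerivAt_t ht x
      have hb := (h.sm.hasDerivAt_t ht x).pow 2
      rw [ha.unique hb, h.pde t ht x]
      simp only [Nat.cast_ofNat, Nat.add_one_sub_one, pow_one]
      ring
    simp_rw [h3]
    rw [intervalIntegral.integral_add, intervalIntegral.integral_add]
    rotate_left
    · exact (continuous_const.mul (hc0.mul (hc1.pow 2))).intervalIntegrable _ _
    · exact (continuous_const.mul (hc0.pow 3)).intervalIntegrable _ _
    · exact (continuous_const.mul (hc0.mul hc3)).intervalIntegrable _ _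
    · exact ((continuous_const.mul (hc0.mul (hc1.pow 2))).add
        (continuous_const.mul (hc0.pow 3))).intervalIntegrable _ _
    rw [integral_total (f := fun x => 2 * (U (t, x) * Dx (Dx U) (t, x)
      - (Dx U (t, x)) ^ 2 / 2))]
    · rw [zero_add, intervalIntegral.integral_const_mul, intervalIntegral.integral_const_mul]
    · intro x
      have d0 := h.sm.hasDerivAt_x ht x
      have d1 := h.sm.dx.hasDerivAt_x ht x
      have d2 := h.sm.dx.dx.hasDerivAt_x ht x
      have := ((d0.mul d2).sub ((d1.pow 2).div_const 2)).const_mul 2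
      refine HasDerivAt.congr_deriv (f := fun x => _) this ?_
      push_cast
      ring
    · exact continuous_const.mul (hc0.mul hc3)
    · simp only [h.per.ends ht, hp1.ends ht, hp2.ends ht]
  rw [h2] at h1
  exact h1

/-- Cauchy-Schwarz on an interval. -/
lemma sq_integral_le {f : ℝ → ℝ} {a b : ℝ} (hab : a ≤ b) (hf : ContinuousOn f (Icc a b)) :
    (∫ x in a..b, f x) ^ 2 ≤ (b - a) * ∫ x in a..b, (f x) ^ 2 := by
  rcases eq_or_lt_of_le hab with rfl | hlt
  · simp
  have hi : IntervalIntegrable f volume a b := by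
    apply ContinuousOn.intervalIntegrable; rwa [uIcc_of_le hab]
  have hi2 : IntervalIntegrable (fun x => (f x) ^ 2) volume a b := by
    apply ContinuousOn.intervalIntegrable; rw [uIcc_of_le hab]; exact hf.pow 2
  set m := ∫ x in a..b, f x with hm
  set c := m / (b - a) with hc
  have h0 : 0 ≤ ∫ x in a..b, (f x - c) ^ 2 :=
    intervalIntegral.integral_nonneg hab (fun x _ => sq_nonneg _)
  have h1 : ∫ x in a..b, (f x - c) ^ 2
      = (∫ x in a..b, (f x) ^ 2) - 2 * c * m + c ^ 2 * (b - a) := by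
    have h2 : ∀ x, (f x - c) ^ 2 = ((f x) ^ 2 - (2 * c) * f x) + c ^ 2 := by intro x; ring
    simp_rw [h2]
    rw [intervalIntegral.integral_add (hi2.sub (hi.const_mul _)) intervalIntegrable_const,
      intervalIntegral.integral_sub hi2 (hi.const_mul _), intervalIntegral.integral_const_mul, intervalIntegral.integral_const, ← hm]
    simp only [smul_eq_mul]
    ring
  rw [h1] at h0
  have hba : 0 < b - a := by linarith
  have h3 : c * (b - a) = m := by rw [hc]; field_simp
  have h4 : 0 ≤ (b - a) * ((∫ x in a..b, (f x) ^ 2) - 2 * c * m + c ^ 2 * (b - a)) :=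
    mul_nonneg hba.le h0
  have h5 : (b - a) * ((∫ x in a..b, (f x) ^ 2) - 2 * c * m + c ^ 2 * (b - a))
      = (b - a) * (∫ x in a..b, (f x) ^ 2) - 2 * (c * (b - a)) * m + (c * (b - a)) ^ 2 := by ring
  rw [h5, h3] at h4
  nlinarith

end Pool.Agent.Lib.MP_b879c5_an
end

section
/-!
A priori estimates: universal bounds for `∫ u`, `∫ u_x^2`, `∫ u^2` and `sup |u|`.
-/
set_option autoImplicit false

namespace Pool.Agent.Lib.MP_b879c5_an

open Set MeasureTheory
open scoped Topology ContDiff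

variable {T : ℝ} {U : ℝ × ℝ → ℝ}

lemma two_pi_pos' : (0:ℝ) < 2 * Real.pi := by positivity

lemma II_nonneg (U : ℝ × ℝ → ℝ) (t : ℝ) : 0 ≤ II U t :=
  intervalIntegral.integral_nonneg two_pi_pos'.le (fun _ _ => sq_nonneg _)

lemma JI_nonneg (U : ℝ × ℝ → ℝ) (t : ℝ) : 0 ≤ JI U t :=
  intervalIntegral.integral_nonneg two_pi_pos'.le (fun _ _ => sq_nonneg _)

lemma Sol.m_sq_le (h : Sol T U) {t : ℝ} (ht : t ∈ Ioo 0 T) :
    (mI U t) ^ 2 ≤ 2 * Real.pi * JI U t := by
  have := sq_integral_le (f := fun x => U (t, x)) two_pi_pos'.le (h.sm.continuous_x ht).continuousOn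
  simpa [mI, JI] using this

lemma Sol.m_mono (h : Sol T U) {s t : ℝ} (hs : s ∈ Ioo 0 T) (ht : t ∈ Ioo 0 T) (hst : s ≤ t) :
    mI U s ≤ mI U t := by
  have hmono : MonotoneOn (mI U) (Ioo 0 T) := by
    refine monotoneOn_of_deriv_nonneg (convex_Ioo 0 T) ?_ ?_ ?_
    · exact fun r hr => (h.hasDerivAt_m hr).continuousAt.continuousWithinAt
    · rw [interior_Ioo]
      exact fun r hr => (h.hasDerivAt_m hr).differentiableAt.differentiableWithinAt
    · rw [interior_Ioo]
      intro r hr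
      rw [(h.hasDerivAt_m hr).deriv]
      exact add_nonneg (II_nonneg U r) (JI_nonneg U r)
  exact hmono hs ht hst

/-- `1/m + s/(2π)` is antitone where `m ≠ 0`. -/
lemma Sol.inv_m_antitone (h : Sol T U) {a b : ℝ} (ha : a ∈ Ioo 0 T) (hb : b ∈ Ioo 0 T)
    (hab : a ≤ b) (hne : ∀ r ∈ Icc a b, mI U r ≠ 0) :
    (mI U b)⁻¹ + b / (2 * Real.pi) ≤ (mI U a)⁻¹ + a / (2 * Real.pi) := by
  have hsub : ∀ r ∈ Icc a b, r ∈ Ioo 0 T := fun r hr =>
    ⟨lt_of_lt_of_le ha.1 hr.1, lt_of_le_of_lt hr.2 hb.2⟩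
  have hd : ∀ r ∈ Icc a b, HasDerivAt (fun s => (mI U s)⁻¹ + s / (2 * Real.pi))
      (-(II U r + JI U r) / (mI U r) ^ 2 + 1 / (2 * Real.pi)) r := by
    intro r hr
    exact ((h.hasDerivAt_m (hsub r hr)).inv (hne r hr)).add ((hasDerivAt_id r).div_const _)
  have hanti : AntitoneOn (fun s => (mI U s)⁻¹ + s / (2 * Real.pi)) (Icc a b) := by
    refine antitoneOn_of_deriv_nonpos (convex_Icc a b) ?_ ?_ ?_
    · exact fun r hr => (hd r hr).continuousAt.continuousWithinAt
    · exact fun r hr => (hd r (interior_subset hr)).differentiableAt.differentiableWithinAt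
    · intro r hr
      have hr' := interior_subset hr
      rw [(hd r hr').deriv]
      have h1 := h.m_sq_le (hsub r hr')
      have h2 : 0 < (mI U r) ^ 2 := by have := hne r hr'; positivity
      have h3 := II_nonneg U r
      have hpi := two_pi_pos'
      have h4 : 1 / (2 * Real.pi) ≤ (II U r + JI U r) / (mI U r) ^ 2 := by
        rw [div_le_div_iff₀ hpi h2]
        nlinarith [mul_nonneg hpi.le h3]
      have h5 : -(II U r + JI U r) / (mI U r) ^ 2 = -((II U r + JI U r) / (mI U r) ^ 2) := by ring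
      rw [h5]; linarith
  exact hanti (left_mem_Icc.mpr hab) (right_mem_Icc.mpr hab) hab

/-- Upper bound for the mean. -/
lemma Sol.m_upper (h : Sol T U) {t : ℝ} (ht : t ∈ Ioo 0 T) :
    (T - t) * mI U t ≤ 2 * Real.pi := by
  have hpi := two_pi_pos'
  have hTt : 0 < T - t := by linarith [ht.2]
  by_contra hcon
  push Not at hcon
  have hm : 0 < mI U t := by
    by_contra hm; push Not at hm
    nlinarith [mul_nonneg hTt.le (neg_nonneg.mpr hm)]
  -- choose b close to T
  have h1 : 2 * Real.pi / mI U t < T - t := by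
    rw [div_lt_iff₀ hm]; exact hcon
  set b := t + 2 * Real.pi / mI U t with hb
  have hbpos : 0 < 2 * Real.pi / mI U t := by positivity
  have hbT : b ∈ Ioo 0 T := ⟨by linarith [ht.1], by linarith⟩
  have hmpos : ∀ r ∈ Icc t b, 0 < mI U r := fun r hr =>
    lt_of_lt_of_le hm (h.m_mono ht ⟨lt_of_lt_of_le ht.1 hr.1, lt_of_le_of_lt hr.2 hbT.2⟩ hr.1)
  have h2 := h.inv_m_antitone ht hbT (by linarith) (fun r hr => (hmpos r hr).ne')
  have h3 : 0 < (mI U b)⁻¹ := inv_pos.mpr (hmpos b (right_mem_Icc.mpr (by linarith)))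
  have h4 : b / (2 * Real.pi) = t / (2 * Real.pi) + (mI U t)⁻¹ := by
    rw [hb]; field_simp
  linarith

/-- Lower bound for the mean. -/
lemma Sol.m_lower (h : Sol T U) {t : ℝ} (ht : t ∈ Ioo 0 T) :
    -(2 * Real.pi) ≤ t * mI U t := by
  have hpi := two_pi_pos'
  by_contra hcon
  push Not at hcon
  have hm : mI U t < 0 := by
    by_contra hm; push Not at hm
    nlinarith [mul_nonneg ht.1.le hm]
  have hm' : 0 < -mI U t := by linarith
  have h1 : 2 * Real.pi / (-mI U t) < t := by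
    rw [div_lt_iff₀ hm']; linarith
  set a := t - 2 * Real.pi / (-mI U t) with ha
  have hbpos : 0 < 2 * Real.pi / (-mI U t) := by positivity
  have haT : a ∈ Ioo 0 T := ⟨by linarith, by linarith [ht.2]⟩
  have hmneg : ∀ r ∈ Icc a t, mI U r < 0 := fun r hr =>
    lt_of_le_of_lt (h.m_mono ⟨lt_of_lt_of_le haT.1 hr.1, lt_of_le_of_lt hr.2 ht.2⟩ ht hr.2) hm
  have h2 := h.inv_m_antitone haT ht (by linarith) (fun r hr => (hmneg r hr).ne)
  have h3 : (mI U a)⁻¹ < 0 := inv_lt_zero.mpr (hmneg a (left_mem_Icc.mpr (by linarith)))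
  have h4 : a / (2 * Real.pi) = t / (2 * Real.pi) + (mI U t)⁻¹ := by
    rw [ha]; field_simp; ring
  linarith

/-- The oscillation is controlled by `∫ u_x^2`, first on a period. -/
lemma Sol.osc_aux (h : Sol T U) {t : ℝ} (ht : t ∈ Ioo 0 T) {x y : ℝ}
    (hy : 0 ≤ y) (hyx : y ≤ x) (hx : x ≤ 2 * Real.pi) :
    |U (t, x) - U (t, y)| ≤ Real.sqrt (2 * Real.pi * II U t) := by
  have hc1 := h.sm.dx.continuous_x ht
  have h1 : ∫ r in y..x, Dx U (t, r) = U (t, x) - U (t, y) :=
    intervalIntegral.integral_eq_sub_of_hasDerivAt (fun r _ => h.sm.hasDerivAt_x ht r)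
      (hc1.intervalIntegrable _ _)
  have h2 := sq_integral_le (f := fun r => Dx U (t, r)) hyx hc1.continuousOn
  rw [h1] at h2
  have h3 : ∫ r in y..x, (Dx U (t, r)) ^ 2 ≤ II U t := by
    unfold II
    exact intervalIntegral.integral_mono_interval hy hyx hx
      (Filter.Eventually.of_forall fun _ => sq_nonneg _) ((hc1.pow 2).intervalIntegrable _ _)
  have h4 : 0 ≤ ∫ r in y..x, (Dx U (t, r)) ^ 2 :=
    intervalIntegral.integral_nonneg hyx (fun _ _ => sq_nonneg _)
  apply Real.abs_le_sqrt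
  calc (U (t, x) - U (t, y)) ^ 2 ≤ (x - y) * ∫ r in y..x, (Dx U (t, r)) ^ 2 := h2
    _ ≤ (2 * Real.pi) * II U t := by
        apply mul_le_mul (by linarith) h3 h4 two_pi_pos'.le

lemma Sol.osc (h : Sol T U) {t : ℝ} (ht : t ∈ Ioo 0 T) {x y : ℝ}
    (hx : x ∈ Icc 0 (2 * Real.pi)) (hy : y ∈ Icc 0 (2 * Real.pi)) :
    |U (t, x) - U (t, y)| ≤ Real.sqrt (2 * Real.pi * II U t) := by
  rcases le_total y x with hle | hle
  · exact h.osc_aux ht hy.1 hle hx.2
  · rw [abs_sub_comm]; exact h.osc_aux ht hx.1 hle hy.2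

lemma Sol.sub_mean_le (h : Sol T U) {t : ℝ} (ht : t ∈ Ioo 0 T) (x : ℝ) :
    |U (t, x) - mI U t / (2 * Real.pi)| ≤ Real.sqrt (2 * Real.pi * II U t) := by
  have hpi := two_pi_pos'
  -- reduce to a period
  have hper : Function.Periodic (fun y => U (t, y)) (2 * Real.pi) := fun y => h.per t ht y
  obtain ⟨x', hx', hxx⟩ := hper.exists_mem_Ico₀ hpi x
  rw [hxx]
  have hx'' : x' ∈ Icc 0 (2 * Real.pi) := ⟨hx'.1, hx'.2.le⟩
  set B := Real.sqrt (2 * Real.pi * II U t) with hB
  have hc0 := h.sm.continuous_x ht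
  have hi : IntervalIntegrable (fun y => U (t, y)) volume 0 (2 * Real.pi) :=
    hc0.intervalIntegrable _ _
  have hup : mI U t ≤ ∫ _ in (0)..(2 * Real.pi), (U (t, x') + B) := by
    unfold mI
    apply intervalIntegral.integral_mono_on hpi.le hi intervalIntegrable_const
    intro y hy
    have := abs_le.mp (h.osc ht hx'' hy)
    linarith [this.1]
  have hlo : ∫ _ in (0)..(2 * Real.pi), (U (t, x') - B) ≤ mI U t := by
    unfold mI
    apply intervalIntegral.integral_mono_on hpi.le intervalIntegrable_const hi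
    intro y hy
    have := abs_le.mp (h.osc ht hx'' hy)
    linarith [this.2]
  rw [intervalIntegral.integral_const, smul_eq_mul] at hup hlo
  have e1 : mI U t / (2 * Real.pi) ≤ U (t, x') + B := by
    rw [div_le_iff₀ hpi]; nlinarith
  have e2 : U (t, x') - B ≤ mI U t / (2 * Real.pi) := by
    rw [le_div_iff₀ hpi]; nlinarith
  rw [abs_le]; constructor <;> linarith

lemma Sol.abs_le (h : Sol T U) {t : ℝ} (ht : t ∈ Ioo 0 T) (x : ℝ) :
    |U (t, x)| ≤ |mI U t| / (2 * Real.pi) + Real.sqrt (2 * Real.pi * II U t) := by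
  have h1 := h.sub_mean_le ht x
  have hpi := two_pi_pos'
  calc |U (t, x)| = |(U (t, x) - mI U t / (2 * Real.pi)) + mI U t / (2 * Real.pi)| := by ring_nf
    _ ≤ |U (t, x) - mI U t / (2 * Real.pi)| + |mI U t / (2 * Real.pi)| := abs_add_le _ _
    _ ≤ _ := by rw [abs_div, abs_of_pos hpi]; linarith

/-- Bound for the cubic term in `I'`. -/
lemma Sol.cubic_I_le (h : Sol T U) {t : ℝ} (ht : t ∈ Ioo 0 T) {M : ℝ}
    (hM : ∀ x, |U (t, x)| ≤ M) :
    ∫ x in (0)..(2 * Real.pi), U (t, x) * (Dx U (t, x)) ^ 2 ≤ M * II U t := by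
  have hc0 := h.sm.continuous_x ht
  have hc1 := h.sm.dx.continuous_x ht
  unfold II
  rw [← intervalIntegral.integral_const_mul]
  apply intervalIntegral.integral_mono_on two_pi_pos'.le
    ((hc0.mul (hc1.pow 2)).intervalIntegrable _ _)
    ((continuous_const.mul (hc1.pow 2)).intervalIntegrable _ _)
  intro x _
  exact mul_le_mul_of_nonneg_right ((le_abs_self _).trans (hM x)) (sq_nonneg _)

lemma Sol.cubic_J_le (h : Sol T U) {t : ℝ} (ht : t ∈ Ioo 0 T) {M : ℝ}
    (hM : ∀ x, |U (t, x)| ≤ M) :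
    ∫ x in (0)..(2 * Real.pi), (U (t, x)) ^ 3 ≤ M * JI U t := by
  have hc0 := h.sm.continuous_x ht
  unfold JI
  rw [← intervalIntegral.integral_const_mul]
  apply intervalIntegral.integral_mono_on two_pi_pos'.le
    ((hc0.pow 3).intervalIntegrable _ _)
    ((continuous_const.mul (hc0.pow 2)).intervalIntegrable _ _)
  intro x _
  change (U (t, x)) ^ 3 ≤ M * (U (t, x)) ^ 2
  have : (U (t, x)) ^ 3 = U (t, x) * (U (t, x)) ^ 2 := by ring
  rw [this]
  exact mul_le_mul_of_nonneg_right ((le_abs_self _).trans (hM x)) (sq_nonneg _)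

end Pool.Agent.Lib.MP_b879c5_an
end

section
/-!
The universal type-I upper bound and the lower blow-up rate.
-/
set_option autoImplicit false

namespace Pool.Agent.Lib.MP_b879c5_an

open Set MeasureTheory
open scoped Topology ContDiff

variable {T : ℝ} {U : ℝ × ℝ → ℝ}

/-- The universal constant for `∫ u_x^2`. -/
noncomputable def C1 : ℝ := 12 * Real.pi * Real.exp (5 + 24 * Real.pi ^ 2)

lemma C1_pos : 0 < C1 := by unfold C1; positivity

lemma Sol.m_upper' (h : Sol T U) {t d : ℝ} (ht : t ∈ Ioo 0 T) (hd : 0 < d) (hdT : d ≤ T - t) :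
    mI U t ≤ 2 * Real.pi / d := by
  rw [le_div_iff₀ hd]
  have h1 := h.m_upper ht
  rcases le_total 0 (mI U t) with hm | hm
  · nlinarith [mul_le_mul_of_nonneg_right hdT hm]
  · nlinarith [two_pi_pos', mul_nonneg hd.le (neg_nonneg.mpr hm)]

lemma Sol.m_lower' (h : Sol T U) {t d : ℝ} (ht : t ∈ Ioo 0 T) (hd : 0 < d) (hdt : d ≤ t) :
    -(2 * Real.pi / d) ≤ mI U t := by
  rw [← neg_div, div_le_iff₀ hd]
  have h1 := h.m_lower ht
  rcases le_total 0 (mI U t) with hm | hm
  · nlinarith [two_pi_pos', mul_nonneg hd.le hm]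
  · nlinarith [mul_le_mul_of_nonneg_right hdt (neg_nonneg.mpr hm)]

lemma sqrt_le_amgm {X d : ℝ} (hX : 0 ≤ X) (hd : 0 < d) :
    Real.sqrt X ≤ 1 / (2 * d) + d * X / 2 := by
  have h1 : 0 ≤ (Real.sqrt X * d - 1) ^ 2 := sq_nonneg _
  have h2 : Real.sqrt X ^ 2 = X := Real.sq_sqrt hX
  have h3 : 1 / (2 * d) + d * X / 2 = (1 + d ^ 2 * X) / (2 * d) := by field_simp
  rw [h3, le_div_iff₀ (by positivity)]
  nlinarith

/-- Universal bound for `∫ u_x^2`. -/
lemma Sol.II_le (h : Sol T U) {t d : ℝ} (ht : t ∈ Ioo 0 T) (hd : 0 < d) (hdt : d ≤ t)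
    (hdT : d ≤ T - t) : II U t ≤ C1 / d ^ 2 := by
  have hpi : 0 < Real.pi := Real.pi_pos
  set a := t - d / 2 with ha
  have haT : a ∈ Ioo 0 T := ⟨by linarith, by linarith [ht.2]⟩
  have hat : a < t := by linarith
  have hsub : ∀ r ∈ Icc a t, r ∈ Ioo 0 T := fun r hr =>
    ⟨lt_of_lt_of_le haT.1 hr.1, lt_of_le_of_lt hr.2 ht.2⟩
  have hmt : mI U t ≤ 2 * Real.pi / d := h.m_upper' ht hd hdT
  have hma : -(2 * Real.pi / (d / 2)) ≤ mI U a := h.m_lower' haT (by linarith) (by linarith)
  have hma' : -(4 * Real.pi / d) ≤ mI U a := by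
    have : 2 * Real.pi / (d / 2) = 4 * Real.pi / d := by field_simp; ring
    rwa [this] at hma
  -- bound on |m| on [a, t]
  have hmr : ∀ r ∈ Icc a t, |mI U r| ≤ 4 * Real.pi / d := by
    intro r hr
    rw [_root_.abs_le]
    constructor
    · exact hma'.trans (h.m_mono haT (hsub r hr) hr.1)
    · refine (h.m_mono (hsub r hr) ht hr.2).trans (hmt.trans ?_)
      gcongr; norm_num
  have hur : ∀ r ∈ Icc a t, ∀ x, |U (r, x)| ≤ 5 / (2 * d) + Real.pi * d * II U r := by
    intro r hr x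
    have h1 := h.abs_le (hsub r hr) x
    have h2 : |mI U r| / (2 * Real.pi) ≤ 2 / d := by
      rw [div_le_iff₀ (by positivity)]
      refine (hmr r hr).trans (le_of_eq ?_)
      field_simp; ring
    have h3 := sqrt_le_amgm (X := 2 * Real.pi * II U r)
      (mul_nonneg two_pi_pos'.le (II_nonneg U r)) hd
    have h4 : 5 / (2 * d) = 2 / d + 1 / (2 * d) := by field_simp; norm_num
    have h5 : d * (2 * Real.pi * II U r) / 2 = Real.pi * d * II U r := by ring
    rw [h5] at h3
    linarith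
  -- mean value theorem
  obtain ⟨s, hs, hslope⟩ := exists_hasDerivAt_eq_slope (mI U) (fun r => II U r + JI U r) hat
    (fun r hr => (h.hasDerivAt_m (hsub r hr)).continuousAt.continuousWithinAt)
    (fun r hr => h.hasDerivAt_m (hsub r (Ioo_subset_Icc_self hr)))
  have hIs : II U s ≤ 12 * Real.pi / d ^ 2 := by
    have h1 : II U s ≤ (mI U t - mI U a) / (t - a) := by
      rw [← hslope]; have := JI_nonneg U s; linarith
    refine h1.trans ?_
    have h2 : t - a = d / 2 := by rw [ha]; ring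
    rw [h2, div_le_div_iff₀ (by positivity) (by positivity)]
    have h3 : mI U t - mI U a ≤ 6 * Real.pi / d := by
      have : 6 * Real.pi / d = 2 * Real.pi / d + 4 * Real.pi / d := by ring
      linarith
    calc (mI U t - mI U a) * d ^ 2 ≤ (6 * Real.pi / d) * d ^ 2 := by gcongr
      _ = 12 * Real.pi * (d / 2) := by field_simp; ring
  have hsI : s ∈ Icc a t := Ioo_subset_Icc_self hs
  -- Gronwall
  set G : ℝ → ℝ := fun r => II U r * Real.exp (-(10 / d) * r - 4 * Real.pi * d * mI U r) with hG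
  have hsub' : ∀ r ∈ Icc s t, r ∈ Icc a t := fun r hr => ⟨hs.1.le.trans hr.1, hr.2⟩
  have hGd : ∀ r ∈ Icc s t, HasDerivAt G
      ((4 * ∫ x in (0)..(2 * Real.pi), U (r, x) * (Dx U (r, x)) ^ 2) *
          Real.exp (-(10 / d) * r - 4 * Real.pi * d * mI U r)
        + II U r * (Real.exp (-(10 / d) * r - 4 * Real.pi * d * mI U r)
          * (-(10 / d) * 1 - 4 * Real.pi * d * (II U r + JI U r)))) r := by
    intro r hr
    have hr' := hsub r (hsub' r hr)
    exact (h.hasDerivAt_I hr').mul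
      ((((hasDerivAt_id r).const_mul (-(10 / d))).sub
        ((h.hasDerivAt_m hr').const_mul (4 * Real.pi * d))).exp)
  have hanti : AntitoneOn G (Icc s t) := by
    refine antitoneOn_of_deriv_nonpos (convex_Icc s t) ?_ ?_ ?_
    · exact fun r hr => (hGd r hr).continuousAt.continuousWithinAt
    · exact fun r hr => (hGd r (interior_subset hr)).differentiableAt.differentiableWithinAt
    · intro r hr
      have hr0 := interior_subset hr
      rw [(hGd r hr0).deriv]
      have hr' := hsub r (hsub' r hr0)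
      have hcub := h.cubic_I_le hr' (hur r (hsub' r hr0))
      set E := Real.exp (-(10 / d) * r - 4 * Real.pi * d * mI U r) with hE
      have hEpos : 0 < E := Real.exp_pos _
      have hI := II_nonneg U r
      have hJ := JI_nonneg U r
      have key : (4 * ∫ x in (0)..(2 * Real.pi), U (r, x) * (Dx U (r, x)) ^ 2)
          ≤ II U r * (10 / d + 4 * Real.pi * d * (II U r + JI U r)) := by
        calc (4 * ∫ x in (0)..(2 * Real.pi), U (r, x) * (Dx U (r, x)) ^ 2)
            ≤ 4 * ((5 / (2 * d) + Real.pi * d * II U r) * II U r) := by linarith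
          _ = II U r * (10 / d + 4 * Real.pi * d * II U r) := by field_simp; ring
          _ ≤ _ := by
            apply mul_le_mul_of_nonneg_left _ hI
            have : 0 ≤ 4 * Real.pi * d * JI U r := by positivity
            nlinarith
      have hfac : (4 * ∫ x in (0)..(2 * Real.pi), U (r, x) * (Dx U (r, x)) ^ 2) * E
          + II U r * (E * (-(10 / d) * 1 - 4 * Real.pi * d * (II U r + JI U r)))
          = E * ((4 * ∫ x in (0)..(2 * Real.pi), U (r, x) * (Dx U (r, x)) ^ 2)
            - II U r * (10 / d + 4 * Real.pi * d * (II U r + JI U r))) := by ring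
      rw [hfac]
      exact mul_nonpos_of_nonneg_of_nonpos hEpos.le (by linarith)
  have hst : s ≤ t := hs.2.le
  have hfin := hanti (left_mem_Icc.mpr hst) (right_mem_Icc.mpr hst) hst
  simp only [hG] at hfin
  have hexp : II U t ≤ II U s * Real.exp ((10 / d) * (t - s)
      + 4 * Real.pi * d * (mI U t - mI U s)) := by
    have h1 : II U t = (II U t * Real.exp (-(10 / d) * t - 4 * Real.pi * d * mI U t))
        * Real.exp ((10 / d) * t + 4 * Real.pi * d * mI U t) := by
      rw [mul_assoc, ← Real.exp_add]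
      have : -(10 / d) * t - 4 * Real.pi * d * mI U t + (10 / d * t + 4 * Real.pi * d * mI U t) = 0 := by
        ring
      rw [this, Real.exp_zero, mul_one]
    rw [h1]
    calc _ ≤ (II U s * Real.exp (-(10 / d) * s - 4 * Real.pi * d * mI U s))
        * Real.exp ((10 / d) * t + 4 * Real.pi * d * mI U t) := by gcongr
      _ = _ := by
        rw [mul_assoc, ← Real.exp_add]
        congr 2; ring
  have hle5 : (10 / d) * (t - s) + 4 * Real.pi * d * (mI U t - mI U s) ≤ 5 + 24 * Real.pi ^ 2 := by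
    have h1 : (10 / d) * (t - s) ≤ 5 := by
      have : t - s ≤ d / 2 := by have := hs.1; linarith
      calc (10 / d) * (t - s) ≤ (10 / d) * (d / 2) := by gcongr
        _ = 5 := by field_simp; norm_num
    have h2 : mI U t - mI U s ≤ 6 * Real.pi / d := by
      have h3 := h.m_mono haT (hsub s hsI) hs.1.le
      have : 6 * Real.pi / d = 2 * Real.pi / d + 4 * Real.pi / d := by ring
      linarith
    have h4 : 4 * Real.pi * d * (mI U t - mI U s) ≤ 24 * Real.pi ^ 2 := by
      calc 4 * Real.pi * d * (mI U t - mI U s) ≤ 4 * Real.pi * d * (6 * Real.pi / d) := by gcongr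
        _ = 24 * Real.pi ^ 2 := by field_simp; ring
    linarith
  calc II U t ≤ II U s * Real.exp ((10 / d) * (t - s) + 4 * Real.pi * d * (mI U t - mI U s)) := hexp
    _ ≤ (12 * Real.pi / d ^ 2) * Real.exp (5 + 24 * Real.pi ^ 2) := by
        gcongr
    _ = C1 / d ^ 2 := by unfold C1; ring

/-- The universal constant for `sup |u|`. -/
noncomputable def C2 : ℝ := 1 + Real.sqrt (2 * Real.pi * C1)

lemma C2_pos : 0 < C2 := by unfold C2; positivity

lemma Sol.abs_le' (h : Sol T U) {t d : ℝ} (ht : t ∈ Ioo 0 T) (hd : 0 < d) (hdt : d ≤ t)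
    (hdT : d ≤ T - t) (x : ℝ) : |U (t, x)| ≤ C2 / d := by
  have h1 := h.abs_le ht x
  have h2 : |mI U t| / (2 * Real.pi) ≤ 1 / d := by
    rw [div_le_iff₀ two_pi_pos']
    have e : 1 / d * (2 * Real.pi) = 2 * Real.pi / d := by ring
    rw [e, _root_.abs_le]
    exact ⟨h.m_lower' ht hd hdt, h.m_upper' ht hd hdT⟩
  have h3 : Real.sqrt (2 * Real.pi * II U t) ≤ Real.sqrt (2 * Real.pi * C1) / d := by
    have h4 : 2 * Real.pi * II U t ≤ (Real.sqrt (2 * Real.pi * C1) / d) ^ 2 := by
      rw [div_pow, Real.sq_sqrt (by have := C1_pos; positivity)]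
      have := h.II_le ht hd hdt hdT
      calc 2 * Real.pi * II U t ≤ 2 * Real.pi * (C1 / d ^ 2) := by gcongr
        _ = _ := by ring
    calc Real.sqrt (2 * Real.pi * II U t) ≤ Real.sqrt ((Real.sqrt (2 * Real.pi * C1) / d) ^ 2) :=
          Real.sqrt_le_sqrt h4
      _ = _ := Real.sqrt_sq (by positivity)
  unfold C2
  rw [add_div]
  linarith

lemma Sol.JI_le (h : Sol T U) {t d : ℝ} (ht : t ∈ Ioo 0 T) (hd : 0 < d) (hdt : d ≤ t)
    (hdT : d ≤ T - t) : JI U t ≤ 2 * Real.pi * C2 ^ 2 / d ^ 2 := by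
  have hc0 := h.sm.continuous_x ht
  have h1 : JI U t ≤ ∫ _ in (0)..(2 * Real.pi), (C2 / d) ^ 2 := by
    unfold JI
    apply intervalIntegral.integral_mono_on two_pi_pos'.le
      ((hc0.pow 2).intervalIntegrable _ _) intervalIntegrable_const
    intro x _
    have := h.abs_le' ht hd hdt hdT x
    change (U (t, x)) ^ 2 ≤ _
    rw [← sq_abs (U (t, x))]
    gcongr
  rw [intervalIntegral.integral_const, smul_eq_mul, sub_zero] at h1
  refine h1.trans (le_of_eq ?_)
  rw [div_pow]; ring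

/-- The universal constant for the `H^1` norm. -/
noncomputable def C3 : ℝ := Real.sqrt (C1 + 2 * Real.pi * C2 ^ 2)

lemma Sol.sqrt_le (h : Sol T U) {t d : ℝ} (ht : t ∈ Ioo 0 T) (hd : 0 < d) (hdt : d ≤ t)
    (hdT : d ≤ T - t) : Real.sqrt (II U t + JI U t) ≤ C3 / d := by
  have h1 := h.II_le ht hd hdt hdT
  have h2 := h.JI_le ht hd hdt hdT
  have h3 : II U t + JI U t ≤ (C3 / d) ^ 2 := by
    unfold C3
    rw [div_pow, Real.sq_sqrt (by have := C1_pos; positivity), add_div]
    linarith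
  calc Real.sqrt (II U t + JI U t) ≤ Real.sqrt ((C3 / d) ^ 2) := Real.sqrt_le_sqrt h3
    _ = _ := Real.sqrt_sq (div_nonneg (Real.sqrt_nonneg _) hd.le)

/-! ### Lower bound -/

lemma Sol.abs_le_H1 (h : Sol T U) {t : ℝ} (ht : t ∈ Ioo 0 T) (x : ℝ) :
    |U (t, x)| ≤ 3 * Real.sqrt (II U t + JI U t) := by
  have hI := II_nonneg U t
  have hJ := JI_nonneg U t
  have hpi := Real.pi_pos
  have hpi3 := Real.pi_gt_three
  have hpi4 := Real.pi_lt_d2
  have h1 := h.abs_le ht x
  set a := Real.sqrt (II U t) with ha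
  set b := Real.sqrt (JI U t) with hb
  set y := Real.sqrt (II U t + JI U t) with hy
  have ha2 : a ^ 2 = II U t := Real.sq_sqrt hI
  have hb2 : b ^ 2 = JI U t := Real.sq_sqrt hJ
  have hy2 : y ^ 2 = II U t + JI U t := Real.sq_sqrt (by positivity)
  have ha0 : 0 ≤ a := Real.sqrt_nonneg _
  have hb0 : 0 ≤ b := Real.sqrt_nonneg _
  have hy0 : 0 ≤ y := Real.sqrt_nonneg _
  -- |m| / 2π ≤ b / √(2π) ≤ b / 2
  have h2 : |mI U t| / (2 * Real.pi) ≤ b / 2 := by
    rw [div_le_iff₀ two_pi_pos']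
    apply abs_le_of_sq_le_sq _ (by positivity)
    have := h.m_sq_le ht
    rw [← hb2] at this
    nlinarith [sq_nonneg b, mul_nonneg hpi.le (sq_nonneg b)]
  have h3 : Real.sqrt (2 * Real.pi * II U t) ≤ (51 / 20) * a := by
    rw [Real.sqrt_mul two_pi_pos'.le, ← ha]
    gcongr
    rw [Real.sqrt_le_left (by norm_num)]
    nlinarith
  -- b/2 + 2.55 a ≤ 3 y
  have h4 : b / 2 + (51 / 20) * a ≤ 3 * y := by
    apply le_of_sq_le_sq _ (by positivity)
    nlinarith [sq_nonneg (a - b), sq_nonneg (a / 2 - (51 / 20) * b)]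
  linarith

lemma Sol.hasDerivAt_y (h : Sol T U) {t : ℝ} (ht : t ∈ Ioo 0 T) :
    HasDerivAt (fun s => II U s + JI U s)
      (4 * (∫ x in (0)..(2 * Real.pi), U (t, x) * (Dx U (t, x)) ^ 2) +
        (2 * (∫ x in (0)..(2 * Real.pi), U (t, x) * (Dx U (t, x)) ^ 2)
      + 2 * ∫ x in (0)..(2 * Real.pi), (U (t, x)) ^ 3)) t :=
  (h.hasDerivAt_I ht).add (h.hasDerivAt_J ht)

lemma Sol.deriv_y_le (h : Sol T U) {t : ℝ} (ht : t ∈ Ioo 0 T) :
    4 * (∫ x in (0)..(2 * Real.pi), U (t, x) * (Dx U (t, x)) ^ 2) +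
        (2 * (∫ x in (0)..(2 * Real.pi), U (t, x) * (Dx U (t, x)) ^ 2)
      + 2 * ∫ x in (0)..(2 * Real.pi), (U (t, x)) ^ 3)
      ≤ 18 * Real.sqrt (II U t + JI U t) * (II U t + JI U t) := by
  have h1 := h.cubic_I_le ht (h.abs_le_H1 ht)
  have h2 := h.cubic_J_le ht (h.abs_le_H1 ht)
  have hy0 := Real.sqrt_nonneg (II U t + JI U t)
  have hJ := JI_nonneg U t
  nlinarith [mul_nonneg hy0 hJ]

/-- Growth of the `H^1` norm is at most quadratic. -/
lemma Sol.inv_sqrt_bound (h : Sol T U) {s t η : ℝ} (hs : s ∈ Ioo 0 T) (ht : t ∈ Ioo 0 T)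
    (hst : s ≤ t) (hη : 0 < η) :
    (Real.sqrt (II U s + JI U s + η))⁻¹ ≤ (Real.sqrt (II U t + JI U t + η))⁻¹ + 9 * (t - s) := by
  have hsub : ∀ r ∈ Icc s t, r ∈ Ioo 0 T := fun r hr =>
    ⟨lt_of_lt_of_le hs.1 hr.1, lt_of_le_of_lt hr.2 ht.2⟩
  have hypos : ∀ r, 0 < II U r + JI U r + η := fun r => by
    have := II_nonneg U r; have := JI_nonneg U r; linarith
  have hd : ∀ r ∈ Icc s t, HasDerivAt
      (fun r => (Real.sqrt (II U r + JI U r + η))⁻¹ + 9 * r)
      (-((4 * (∫ x in (0)..(2 * Real.pi), U (r, x) * (Dx U (r, x)) ^ 2) +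
        (2 * (∫ x in (0)..(2 * Real.pi), U (r, x) * (Dx U (r, x)) ^ 2)
      + 2 * ∫ x in (0)..(2 * Real.pi), (U (r, x)) ^ 3)) /
        (2 * Real.sqrt (II U r + JI U r + η))) / (Real.sqrt (II U r + JI U r + η)) ^ 2 + 9 * 1) r := by
    intro r hr
    exact ((((h.hasDerivAt_y (hsub r hr)).add_const η).sqrt (hypos r).ne').inv
      (Real.sqrt_pos.mpr (hypos r)).ne').add ((hasDerivAt_id r).const_mul 9)
  have hmono : MonotoneOn (fun r => (Real.sqrt (II U r + JI U r + η))⁻¹ + 9 * r) (Icc s t) := by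
    refine monotoneOn_of_deriv_nonneg (convex_Icc s t) ?_ ?_ ?_
    · exact fun r hr => (hd r hr).continuousAt.continuousWithinAt
    · exact fun r hr => (hd r (interior_subset hr)).differentiableAt.differentiableWithinAt
    · intro r hr
      have hr0 := interior_subset hr
      rw [(hd r hr0).deriv]
      have hle := h.deriv_y_le (hsub r hr0)
      set D := 4 * (∫ x in (0)..(2 * Real.pi), U (r, x) * (Dx U (r, x)) ^ 2) +
        (2 * (∫ x in (0)..(2 * Real.pi), U (r, x) * (Dx U (r, x)) ^ 2)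
      + 2 * ∫ x in (0)..(2 * Real.pi), (U (r, x)) ^ 3) with hD
      set Y := II U r + JI U r with hY
      have hY0 : 0 ≤ Y := add_nonneg (II_nonneg U r) (JI_nonneg U r)
      set q := Real.sqrt (Y + η) with hq
      have hq0 : 0 < q := Real.sqrt_pos.mpr (by linarith)
      have hq2 : q ^ 2 = Y + η := Real.sq_sqrt (by linarith)
      have hsq : Real.sqrt Y ≤ q := Real.sqrt_le_sqrt (by linarith)
      have hDle : D ≤ 18 * q ^ 3 := by
        calc D ≤ 18 * Real.sqrt Y * Y := hle
          _ ≤ 18 * q * (q ^ 2) := by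
            apply mul_le_mul _ (by rw [hq2]; linarith) hY0 (by positivity)
            linarith
          _ = 18 * q ^ 3 := by ring
      have h5 : -(D / (2 * q)) / q ^ 2 + 9 * 1 = (18 * q ^ 3 - D) / (2 * q ^ 3) := by
        field_simp; ring
      rw [h5]
      apply div_nonneg (by linarith) (by positivity)
  have := hmono (left_mem_Icc.mpr hst) (right_mem_Icc.mpr hst) hst
  simp only at this
  linarith

/-- Lower blow-up rate. -/
lemma Sol.lower (h : Sol T U)
    (hblow : ∀ M : ℝ, ∀ t₀ < T, ∃ t ∈ Ioo 0 T, t₀ < t ∧ ∃ x, M < |U (t, x)|)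
    {t : ℝ} (ht : t ∈ Ioo 0 T) : 1 / 9 ≤ (T - t) * Real.sqrt (II U t + JI U t) := by
  have hTt : 0 < T - t := by linarith [ht.2]
  -- for every η > 0
  have key : ∀ η > 0, 1 ≤ 9 * (T - t) * Real.sqrt (II U t + JI U t + η) := by
    intro η hη
    set q := Real.sqrt (II U t + JI U t + η) with hq
    have hq0 : 0 < q := Real.sqrt_pos.mpr (by
      have := II_nonneg U t; have := JI_nonneg U t; linarith)
    -- q⁻¹ ≤ ε + 9 (T - t) for every ε > 0
    have h1 : q⁻¹ ≤ 9 * (T - t) := by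
      apply le_of_forall_pos_le_add
      intro ε hε
      obtain ⟨s, hs, hts, x, hx⟩ := hblow (3 / ε) t ht.2
      have h2 := h.inv_sqrt_bound ht hs hts.le hη
      have h3 := h.abs_le_H1 hs x
      have h4 : 1 / ε < Real.sqrt (II U s + JI U s) := by
        have : 3 / ε < 3 * Real.sqrt (II U s + JI U s) := hx.trans_le h3
        have e : 3 / ε = 3 * (1 / ε) := by ring
        rw [e] at this; linarith
      have h5 : 1 / ε < Real.sqrt (II U s + JI U s + η) :=
        h4.trans_le (Real.sqrt_le_sqrt (by linarith))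
      have h6 : (Real.sqrt (II U s + JI U s + η))⁻¹ ≤ ε := by
        have := inv_anti₀ (by positivity) h5.le
        simpa using this
      have h7 : s < T := hs.2
      linarith
    have h8 : q⁻¹ * q ≤ 9 * (T - t) * q := mul_le_mul_of_nonneg_right h1 hq0.le
    rwa [inv_mul_cancel₀ hq0.ne'] at h8
  have hcont : Filter.Tendsto (fun η => 9 * (T - t) * Real.sqrt (II U t + JI U t + η)) (𝓝[>] 0)
      (𝓝 (9 * (T - t) * Real.sqrt (II U t + JI U t + 0))) := by
    apply Filter.Tendsto.mono_left _ nhdsWithin_le_nhds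
    exact (Continuous.tendsto (by fun_prop) 0)
  have hlim := ge_of_tendsto hcont (Filter.eventually_of_mem self_mem_nhdsWithin key)
  rw [add_zero] at hlim
  linarith

end Pool.Agent.Lib.MP_b879c5_an
end

section
/-!
Local averages of a solution and the sharp asymptotic bounds.
-/
set_option autoImplicit false

namespace Pool.Agent.Lib.MP_b879c5_an

open Set MeasureTheory
open scoped Topology ContDiff

variable {T : ℝ} {U : ℝ × ℝ → ℝ}

/-- Differentiation under the integral sign on an arbitrary interval. -/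
lemma Sm.hasDerivAt_integral' {G : ℝ × ℝ → ℝ} (h : Sm T G) {t : ℝ} (ht : t ∈ Ioo 0 T)
    {a b : ℝ} (hab : a ≤ b) :
    HasDerivAt (fun s => ∫ x in a..b, G (s, x)) (∫ x in a..b, Dt G (t, x)) t := by
  obtain ⟨ht0, htT⟩ := ht
  set ε := min t (T - t) / 2 with hε
  have hεpos : 0 < ε := by
    have : 0 < min t (T - t) := lt_min ht0 (by linarith)
    positivity
  have hball : ∀ s ∈ Metric.ball t ε, s ∈ Icc (t - ε) (t + ε) := by
    intro s hs
    rw [Metric.mem_ball, Real.dist_eq, abs_lt] at hs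
    exact ⟨by linarith [hs.1], by linarith [hs.2]⟩
  have hIcc : ∀ s ∈ Icc (t - ε) (t + ε), s ∈ Ioo 0 T := by
    intro s hs
    have h1 : min t (T - t) ≤ t := min_le_left _ _
    have h2 : min t (T - t) ≤ T - t := min_le_right _ _
    have h3 : 0 < min t (T - t) := lt_min ht0 (by linarith)
    exact ⟨by linarith [hs.1], by linarith [hs.2]⟩
  have hK : IsCompact (Icc (t - ε) (t + ε) ×ˢ Icc a b) := isCompact_Icc.prod isCompact_Icc
  have hcont : ContinuousOn (Dt G) (Icc (t - ε) (t + ε) ×ˢ Icc a b) := by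
    refine h.dt.continuousOn.mono ?_
    rintro ⟨s, x⟩ ⟨hs, _⟩
    exact mem_Om.mpr (hIcc s hs)
  obtain ⟨C, hC⟩ := hK.exists_bound_of_continuousOn hcont
  refine (intervalIntegral.hasDerivAt_integral_of_dominated_loc_of_deriv_le
    (F := fun s x => G (s, x)) (F' := fun s x => Dt G (s, x)) (bound := fun _ => C)
    (Metric.ball_mem_nhds t hεpos) ?_ ?_ ?_ ?_ ?_ ?_).2
  · filter_upwards [Metric.ball_mem_nhds t hεpos] with s hs
    exact (h.continuous_x (hIcc s (hball s hs))).aestronglyMeasurable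
  · exact (h.continuous_x ⟨ht0, htT⟩).intervalIntegrable _ _
  · exact (h.dt.continuous_x ⟨ht0, htT⟩).aestronglyMeasurable
  · refine Filter.Eventually.of_forall fun x hx s hs => ?_
    rw [uIoc_of_le hab] at hx
    exact hC (s, x) ⟨hball s hs, ⟨hx.1.le, hx.2⟩⟩
  · exact intervalIntegrable_const
  · refine Filter.Eventually.of_forall fun x _ s hs => ?_
    exact h.hasDerivAt_t (hIcc s (hball s hs)) x

/-- The weight `κ (ℓ² - y²)³`, `κ = 35/(32 ℓ⁷)`, of total mass one on `[-ℓ, ℓ]`. -/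
noncomputable def wt (l y : ℝ) : ℝ := 35 / (32 * l ^ 7) * (l ^ 2 - y ^ 2) ^ 3

lemma wt_nonneg {l y : ℝ} (hl : 0 < l) (hy : |y| ≤ l) : 0 ≤ wt l y := by
  have h1 : y ^ 2 ≤ l ^ 2 := by
    rw [← sq_abs y]; exact pow_le_pow_left₀ (abs_nonneg y) hy 2
  unfold wt
  have : 0 ≤ l ^ 2 - y ^ 2 := by linarith
  positivity

lemma continuous_wt (l c : ℝ) : Continuous fun x => wt l (x - c) := by
  unfold wt; fun_prop

lemma integral_wt {l : ℝ} (hl : 0 < l) (c : ℝ) : ∫ x in (c - l)..(c + l), wt l (x - c) = 1 := by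
  have h1 : ∫ x in (c - l)..(c + l), wt l (x - c) = ∫ y in (-l)..l, wt l y := by
    rw [intervalIntegral.integral_comp_sub_right (fun y => wt l y) c]
    congr 1 <;> ring
  rw [h1]
  have h2 : ∀ y, HasDerivAt (fun y => 35 / (32 * l ^ 7) *
      (l ^ 6 * y - l ^ 4 * y ^ 3 + 3 * l ^ 2 * y ^ 5 / 5 - y ^ 7 / 7)) (wt l y) y := by
    intro y
    have e1 := (hasDerivAt_id y).const_mul (l ^ 6)
    have e2 := ((hasDerivAt_id y).pow 3).const_mul (l ^ 4)
    have e3 := (((hasDerivAt_id y).pow 5).const_mul (3 * l ^ 2)).div_const 5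
    have e4 := ((hasDerivAt_id y).pow 7).div_const 7
    have := (((e1.sub e2).add e3).sub e4).const_mul (35 / (32 * l ^ 7))
    refine HasDerivAt.congr_deriv (f := fun y => _) this ?_
    unfold wt
    simp only [id, Nat.cast_ofNat]
    ring
  rw [intervalIntegral.integral_eq_sub_of_hasDerivAt (fun y _ => h2 y)
    ((by unfold wt; fun_prop : Continuous fun y => wt l y).intervalIntegrable _ _)]
  field_simp
  ring

/-- The weighted average of `U(t,·)` around `c`. -/
noncomputable def avg (U : ℝ × ℝ → ℝ) (l c t : ℝ) : ℝ :=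
  ∫ x in (c - l)..(c + l), U (t, x) * wt l (x - c)

/-- third derivative of the weight -/
noncomputable def wt3 (l y : ℝ) : ℝ := 35 / (32 * l ^ 7) * (72 * l ^ 2 * y - 120 * y ^ 3)

lemma continuous_wt3 (l c : ℝ) : Continuous fun x => wt3 l (x - c) := by
  unfold wt3; fun_prop

lemma abs_wt3_le {l y : ℝ} (hl : 0 < l) (hy : |y| ≤ l) : |wt3 l y| ≤ 210 / l ^ 4 := by
  unfold wt3
  rw [abs_mul, abs_of_pos (by positivity : (0:ℝ) < 35 / (32 * l ^ 7))]
  have h1 : |72 * l ^ 2 * y - 120 * y ^ 3| ≤ 192 * l ^ 3 := by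
    calc |72 * l ^ 2 * y - 120 * y ^ 3| ≤ |72 * l ^ 2 * y| + |120 * y ^ 3| := abs_sub _ _
      _ = 72 * l ^ 2 * |y| + 120 * |y| ^ 3 := by
        rw [abs_mul (72 * l ^ 2) y, abs_mul (120 : ℝ) (y ^ 3),
          abs_of_pos (by positivity : (0:ℝ) < 72 * l ^ 2), abs_pow, abs_of_pos (by norm_num : (0:ℝ) < 120)]
      _ ≤ 72 * l ^ 2 * l + 120 * l ^ 3 := by gcongr
      _ = 192 * l ^ 3 := by ring
  calc 35 / (32 * l ^ 7) * |72 * l ^ 2 * y - 120 * y ^ 3| ≤ 35 / (32 * l ^ 7) * (192 * l ^ 3) := by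
        gcongr
    _ = 210 / l ^ 4 := by field_simp; norm_num

/-- Integration by parts. -/
lemma Sol.ibp (h : Sol T U) {t : ℝ} (ht : t ∈ Ioo 0 T) (l c : ℝ) :
    ∫ x in (c - l)..(c + l), Dx (Dx (Dx U)) (t, x) * wt l (x - c) =
      -∫ x in (c - l)..(c + l), U (t, x) * wt3 l (x - c) := by
  have hc0 := h.sm.continuous_x ht
  have hc3 := h.sm.dx.dx.dx.continuous_x ht
  have i1 : IntervalIntegrable (fun x => Dx (Dx (Dx U)) (t, x) * wt l (x - c)) volume
      (c - l) (c + l) := (hc3.mul (continuous_wt l c)).intervalIntegrable _ _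
  have i2 : IntervalIntegrable (fun x => U (t, x) * wt3 l (x - c)) volume
      (c - l) (c + l) := (hc0.mul (continuous_wt3 l c)).intervalIntegrable _ _
  have key : ∫ x in (c - l)..(c + l), (Dx (Dx (Dx U)) (t, x) * wt l (x - c) +
      U (t, x) * wt3 l (x - c)) = 0 := by
    set κ := 35 / (32 * l ^ 7) with hκ
    rw [intervalIntegral.integral_eq_sub_of_hasDerivAt (f := fun x =>
      Dx (Dx U) (t, x) * (κ * (l ^ 2 - (x - c) ^ 2) ^ 3)
      - Dx U (t, x) * (-6 * κ * (x - c) * (l ^ 2 - (x - c) ^ 2) ^ 2)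
      + U (t, x) * (-6 * κ * (l ^ 2 - (x - c) ^ 2) ^ 2
        + 24 * κ * (x - c) ^ 2 * (l ^ 2 - (x - c) ^ 2))) ?_ (i1.add i2)]
    · ring
    · intro x _
      have d0 := h.sm.hasDerivAt_x ht x
      have d1 := h.sm.dx.hasDerivAt_x ht x
      have d2 := h.sm.dx.dx.hasDerivAt_x ht x
      have e0 : HasDerivAt (fun x : ℝ => x - c) 1 x := (hasDerivAt_id x).sub_const c
      have e1 : HasDerivAt (fun x : ℝ => l ^ 2 - (x - c) ^ 2) (-(2 * (x - c))) x := by
        have := (e0.pow 2).const_sub (l ^ 2)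
        refine HasDerivAt.congr_deriv (f := fun x => _) this ?_
        simp
      have a3 := d2.mul ((e1.pow 3).const_mul κ)
      have a2 := d1.mul (((e0.const_mul (-6 * κ)).mul (e1.pow 2)))
      have a1 := d0.mul (((e1.pow 2).const_mul (-6 * κ)).add
        (((e0.pow 2).const_mul (24 * κ)).mul e1))
      have := (a3.sub a2).add a1
      refine HasDerivAt.congr_deriv (f := fun x => _) this ?_
      unfold wt wt3
      rw [← hκ]
      simp only [Nat.cast_ofNat, Nat.add_one_sub_one, pow_one, Pi.pow_apply, Pi.mul_apply,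
        Pi.add_apply]
      ring
  rw [intervalIntegral.integral_add i1 i2] at key
  linarith

lemma Sol.hasDerivAt_avg (h : Sol T U) {t : ℝ} (ht : t ∈ Ioo 0 T) {l : ℝ} (hl : 0 < l) (c : ℝ) :
    HasDerivAt (avg U l c) (-(∫ x in (c - l)..(c + l), U (t, x) * wt3 l (x - c)) +
      ∫ x in (c - l)..(c + l), ((Dx U (t, x)) ^ 2 + (U (t, x)) ^ 2) * wt l (x - c)) t := by
  have hsm : Sm T (fun p : ℝ × ℝ => U p * wt l (p.2 - c)) := by
    refine h.sm.mul ?_
    refine ContDiff.contDiffOn ?_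
    unfold wt
    fun_prop
  have h1 := hsm.hasDerivAt_integral' ht (by linarith : c - l ≤ c + l)
  have hc0 := h.sm.continuous_x ht
  have hc1 := h.sm.dx.continuous_x ht
  have hc3 := h.sm.dx.dx.dx.continuous_x ht
  have h2 : ∀ x, Dt (fun p : ℝ × ℝ => U p * wt l (p.2 - c)) (t, x) =
      Dx (Dx (Dx U)) (t, x) * wt l (x - c) +
        ((Dx U (t, x)) ^ 2 + (U (t, x)) ^ 2) * wt l (x - c) := by
    intro x
    have ha := hsm.hasDerivAt_t ht x
    have hb := (h.sm.hasDerivAt_t ht x).mul_const (wt l (x - c))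
    rw [ha.unique hb, h.pde t ht x]
    ring
  simp_rw [h2] at h1
  have i1 : IntervalIntegrable (fun x => Dx (Dx (Dx U)) (t, x) * wt l (x - c)) volume
      (c - l) (c + l) := (hc3.mul (continuous_wt l c)).intervalIntegrable _ _
  have i2 : IntervalIntegrable (fun x => ((Dx U (t, x)) ^ 2 + (U (t, x)) ^ 2) * wt l (x - c)) volume
      (c - l) (c + l) := (((hc1.pow 2).add (hc0.pow 2)).mul (continuous_wt l c)).intervalIntegrable _ _
  rw [intervalIntegral.integral_add i1 i2, h.ibp ht l c] at h1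
  exact h1

lemma abs_sub_le_of_mem {l c x : ℝ} (hx : x ∈ Icc (c - l) (c + l)) : |x - c| ≤ l := by
  rw [_root_.abs_le]; exact ⟨by linarith [hx.1], by linarith [hx.2]⟩

/-- The Riccati inequality for the averages. -/
lemma Sol.avg_deriv_ge (h : Sol T U) {t : ℝ} (ht : t ∈ Ioo 0 T) {l : ℝ} (hl : 0 < l) (c : ℝ)
    {S : ℝ} (hS : ∀ x, |U (t, x)| ≤ S) :
    (avg U l c t) ^ 2 - 420 * S / l ^ 3 ≤
      -(∫ x in (c - l)..(c + l), U (t, x) * wt3 l (x - c)) +
      ∫ x in (c - l)..(c + l), ((Dx U (t, x)) ^ 2 + (U (t, x)) ^ 2) * wt l (x - c) := by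
  have hc0 := h.sm.continuous_x ht
  have hc1 := h.sm.dx.continuous_x ht
  have hcl : c - l ≤ c + l := by linarith
  have hS0 : 0 ≤ S := (abs_nonneg _).trans (hS 0)
  -- the first term
  have h1 : ∫ x in (c - l)..(c + l), U (t, x) * wt3 l (x - c) ≤ 420 * S / l ^ 3 := by
    have h2 : ∀ x ∈ Icc (c - l) (c + l), U (t, x) * wt3 l (x - c) ≤ S * (210 / l ^ 4) := by
      intro x hx
      refine (le_abs_self _).trans ?_
      rw [abs_mul]
      exact mul_le_mul (hS x) (abs_wt3_le hl (abs_sub_le_of_mem hx)) (abs_nonneg _) hS0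
    have h3 := intervalIntegral.integral_mono_on (μ := volume) hcl
      ((hc0.mul (continuous_wt3 l c)).intervalIntegrable _ _)
      (continuous_const.intervalIntegrable _ _) h2
    rw [intervalIntegral.integral_const] at h3
    refine h3.trans (le_of_eq ?_)
    rw [smul_eq_mul]
    field_simp
    ring
  -- the quadratic terms
  have h4 : ∫ x in (c - l)..(c + l), (U (t, x)) ^ 2 * wt l (x - c) ≤
      ∫ x in (c - l)..(c + l), ((Dx U (t, x)) ^ 2 + (U (t, x)) ^ 2) * wt l (x - c) := by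
    refine intervalIntegral.integral_mono_on hcl
      (((hc0.pow 2).mul (continuous_wt l c)).intervalIntegrable _ _)
      ((((hc1.pow 2).add (hc0.pow 2)).mul (continuous_wt l c)).intervalIntegrable _ _) ?_
    intro x hx
    refine mul_le_mul_of_nonneg_right ?_ (wt_nonneg hl (abs_sub_le_of_mem hx))
    nlinarith [sq_nonneg (Dx U (t, x))]
  have h5 : (avg U l c t) ^ 2 ≤ ∫ x in (c - l)..(c + l), (U (t, x)) ^ 2 * wt l (x - c) := by
    set M := avg U l c t with hM
    have h6 : 0 ≤ ∫ x in (c - l)..(c + l), (U (t, x) - M) ^ 2 * wt l (x - c) :=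
      intervalIntegral.integral_nonneg hcl fun x hx =>
        mul_nonneg (sq_nonneg _) (wt_nonneg hl (abs_sub_le_of_mem hx))
    have h7 : ∀ x, (U (t, x) - M) ^ 2 * wt l (x - c) = (U (t, x)) ^ 2 * wt l (x - c) -
        2 * M * (U (t, x) * wt l (x - c)) + M ^ 2 * wt l (x - c) := by intro x; ring
    simp_rw [h7] at h6
    have i1 : IntervalIntegrable (fun x => (U (t, x)) ^ 2 * wt l (x - c)) volume
      (c - l) (c + l) := ((hc0.pow 2).mul (continuous_wt l c)).intervalIntegrable _ _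
    have i2 : IntervalIntegrable (fun x => 2 * M * (U (t, x) * wt l (x - c))) volume
      (c - l) (c + l) :=
        (continuous_const.mul (hc0.mul (continuous_wt l c))).intervalIntegrable _ _
    have i3 : IntervalIntegrable (fun x => M ^ 2 * wt l (x - c)) volume
      (c - l) (c + l) := (continuous_const.mul (continuous_wt l c)).intervalIntegrable _ _
    rw [intervalIntegral.integral_add (i1.sub i2) i3, intervalIntegral.integral_sub i1 i2,
      intervalIntegral.integral_const_mul, intervalIntegral.integral_const_mul,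
      integral_wt hl c] at h6
    have h8 : ∫ x in (c - l)..(c + l), U (t, x) * wt l (x - c) = M := rfl
    rw [h8] at h6
    nlinarith
  linarith

lemma Sol.abs_avg_le (h : Sol T U) {t : ℝ} (ht : t ∈ Ioo 0 T) {l : ℝ} (hl : 0 < l) (c : ℝ)
    {S : ℝ} (hS : ∀ x, |U (t, x)| ≤ S) : |avg U l c t| ≤ S := by
  have hc0 := h.sm.continuous_x ht
  have hcl : c - l ≤ c + l := by linarith
  have h1 : |avg U l c t| ≤ ∫ x in (c - l)..(c + l), |U (t, x) * wt l (x - c)| :=
    intervalIntegral.abs_integral_le_integral_abs hcl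
  refine h1.trans ?_
  have h2 : ∫ x in (c - l)..(c + l), |U (t, x) * wt l (x - c)| ≤
      ∫ x in (c - l)..(c + l), S * wt l (x - c) := by
    refine intervalIntegral.integral_mono_on hcl
      ((hc0.mul (continuous_wt l c)).abs.intervalIntegrable _ _)
      ((continuous_const.mul (continuous_wt l c)).intervalIntegrable _ _) ?_
    intro x hx
    rw [abs_mul, abs_of_nonneg (wt_nonneg hl (abs_sub_le_of_mem hx))]
    exact mul_le_mul_of_nonneg_right (hS x) (wt_nonneg hl (abs_sub_le_of_mem hx))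
  rw [intervalIntegral.integral_const_mul, integral_wt hl c, mul_one] at h2
  exact h2

/-- Oscillation at scale `l`. -/
lemma Sol.osc_small (h : Sol T U) {t : ℝ} (ht : t ∈ Ioo 0 T) {l c x : ℝ} (hl : l ≤ Real.pi)
    (hx : x ∈ Icc (c - l) (c + l)) : |U (t, x) - U (t, c)| ≤ Real.sqrt (l * II U t) := by
  have hc1 := h.sm.dx.continuous_x ht
  have hpi := Real.pi_pos
  have hl0 : 0 ≤ l := by linarith [hx.1, hx.2]
  have hper : Function.Periodic (fun y => (Dx U (t, y)) ^ 2) (2 * Real.pi) := by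
    intro y
    simp only [Per.dx h.sm h.per t ht y]
  -- the general estimate for `a ≤ b`, both within `l` of `c`
  have key : ∀ a b : ℝ, a ≤ b → b - a ≤ l → c - Real.pi ≤ a → b ≤ c + Real.pi →
      |U (t, b) - U (t, a)| ≤ Real.sqrt (l * II U t) := by
    intro a b hab hbl ha hb
    have h1 : ∫ r in a..b, Dx U (t, r) = U (t, b) - U (t, a) :=
      intervalIntegral.integral_eq_sub_of_hasDerivAt (fun r _ => h.sm.hasDerivAt_x ht r)
        (hc1.intervalIntegrable _ _)
    have h2 := sq_integral_le (f := fun r => Dx U (t, r)) hab hc1.continuousOn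
    rw [h1] at h2
    have h3 : ∫ r in a..b, (Dx U (t, r)) ^ 2 ≤ II U t := by
      have h4 : ∫ r in (c - Real.pi)..(c - Real.pi + 2 * Real.pi), (Dx U (t, r)) ^ 2 = II U t := by
        have := hper.intervalIntegral_add_eq (c - Real.pi) 0
        rw [this, zero_add]; rfl
      rw [← h4]
      refine intervalIntegral.integral_mono_interval ha hab (by linarith) ?_
        ((hc1.pow 2).intervalIntegrable _ _)
      exact Filter.Eventually.of_forall fun r => sq_nonneg _
    have h5 : 0 ≤ ∫ r in a..b, (Dx U (t, r)) ^ 2 :=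
      intervalIntegral.integral_nonneg hab fun r _ => sq_nonneg _
    rw [← Real.sqrt_sq_eq_abs]
    apply Real.sqrt_le_sqrt
    calc (U (t, b) - U (t, a)) ^ 2 ≤ (b - a) * ∫ r in a..b, (Dx U (t, r)) ^ 2 := h2
      _ ≤ l * II U t := mul_le_mul hbl h3 h5 hl0
  rcases le_total c x with hcx | hcx
  · exact key c x hcx (by linarith [hx.2]) (by linarith) (by linarith [hx.2])
  · rw [abs_sub_comm]
    exact key x c hcx (by linarith [hx.1]) (by linarith [hx.1]) (by linarith)

lemma Sol.avg_close (h : Sol T U) {t : ℝ} (ht : t ∈ Ioo 0 T) {l c : ℝ} (hl0 : 0 < l)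
    (hl : l ≤ Real.pi) : |U (t, c) - avg U l c t| ≤ Real.sqrt (l * II U t) := by
  have hc0 := h.sm.continuous_x ht
  have hcl : c - l ≤ c + l := by linarith
  have h1 : U (t, c) - avg U l c t =
      ∫ x in (c - l)..(c + l), (U (t, c) - U (t, x)) * wt l (x - c) := by
    have h2 : ∀ x, (U (t, c) - U (t, x)) * wt l (x - c) =
        U (t, c) * wt l (x - c) - U (t, x) * wt l (x - c) := by intro x; ring
    simp_rw [h2]
    have i1 : IntervalIntegrable (fun x => U (t, c) * wt l (x - c)) volume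
      (c - l) (c + l) := (continuous_const.mul (continuous_wt l c)).intervalIntegrable _ _
    have i2 : IntervalIntegrable (fun x => U (t, x) * wt l (x - c)) volume
      (c - l) (c + l) := (hc0.mul (continuous_wt l c)).intervalIntegrable _ _
    rw [intervalIntegral.integral_sub i1 i2,
      intervalIntegral.integral_const_mul, integral_wt hl0 c, mul_one]
    rfl
  rw [h1]
  refine (intervalIntegral.abs_integral_le_integral_abs hcl).trans ?_
  have h3 : ∫ x in (c - l)..(c + l), |(U (t, c) - U (t, x)) * wt l (x - c)| ≤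
      ∫ x in (c - l)..(c + l), Real.sqrt (l * II U t) * wt l (x - c) := by
    refine intervalIntegral.integral_mono_on hcl
      (((continuous_const.sub hc0).mul (continuous_wt l c)).abs.intervalIntegrable _ _)
      ((continuous_const.mul (continuous_wt l c)).intervalIntegrable _ _) ?_
    intro x hx
    rw [abs_mul, abs_of_nonneg (wt_nonneg hl0 (abs_sub_le_of_mem hx)), abs_sub_comm]
    exact mul_le_mul_of_nonneg_right (h.osc_small ht hl hx)
      (wt_nonneg hl0 (abs_sub_le_of_mem hx))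
  rw [intervalIntegral.integral_const_mul, integral_wt hl0 c, mul_one] at h3
  exact h3

end Pool.Agent.Lib.MP_b879c5_an
end

section
/-!
The sharp asymptotic bounds for the rescaled orbit.
-/
set_option autoImplicit false

namespace Pool.Agent.Lib.MP_b879c5_an

open Set MeasureTheory Filter
open scoped Topology ContDiff

variable {T : ℝ} {U : ℝ × ℝ → ℝ}

/-- A Riccati differential inequality with a perturbation: blow-up cannot happen before `T`. -/
lemma riccati_upper {M M' : ℝ → ℝ} {t0 E : ℝ} (ht : t0 < T) (hE : 0 ≤ E)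
    (hd : ∀ s ∈ Ico t0 T, HasDerivAt M (M' s) s)
    (hM : ∀ s ∈ Ico t0 T, M s ^ 2 - E / (T - s) ≤ M' s) :
    (T - t0) * M t0 ≤ 1 + 2 * E * (T - t0) := by
  by_contra hcon
  push Not at hcon
  set D := T - t0 with hD
  have hD0 : 0 < D := by rw [hD]; linarith
  set k := (D * M t0 - 1) / 2 with hk
  have hkE : E * D < k := by rw [hk]; linarith
  have hk0 : 0 < k := lt_of_le_of_lt (by positivity) hkE
  have hMt : M t0 = (1 + 2 * k) / D := by rw [hk]; field_simp; ring
  have hM0 : 0 < M t0 := by rw [hMt]; positivity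
  set T' := t0 + (1 + k) / M t0 with hT'
  have h1 : (1 + k) / M t0 < D := by
    rw [div_lt_iff₀ hM0, hMt, mul_div_cancel₀ _ hD0.ne']
    linarith
  have h2 : t0 < T' := by rw [hT']; have : 0 < (1 + k) / M t0 := by positivity
                          linarith
  have h3 : T' < T := by rw [hT']; linarith
  have hT'0 : T' - t0 = (1 + k) / M t0 := by rw [hT']; ring
  -- the barrier
  have key : ∀ b ∈ Ico t0 T', (1 + k) / (T' - b) ≤ M b := by
    intro b hb
    have hsub : ∀ s ∈ Icc t0 b, s ∈ Ico t0 T := fun s hs =>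
      ⟨hs.1, (hs.2.trans_lt hb.2).trans h3⟩
    have hder : ∀ s ∈ Icc t0 b, HasDerivAt (fun s => (1 + k) / (T' - s))
        ((1 + k) / (T' - s) ^ 2) s := by
      intro s hs
      have hs' : T' - s ≠ 0 := by have := hs.2.trans_lt hb.2; linarith
      have e1 : HasDerivAt (fun s => T' - s) (-1) s := (hasDerivAt_id s).const_sub T'
      have e2 := (hasDerivAt_const s (1 + k)).div e1 hs'
      refine HasDerivAt.congr_deriv (f := fun s => _) e2 ?_
      ring
    refine image_le_of_deriv_right_lt_deriv_boundary' (a := t0) (b := b)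
      (f := fun s => (1 + k) / (T' - s)) (f' := fun s => (1 + k) / (T' - s) ^ 2)
      (B := M) (B' := M') ?_ ?_ ?_ ?_ ?_ ?_ (right_mem_Icc.mpr hb.1)
    · exact fun s hs => (hder s hs).continuousAt.continuousWithinAt
    · exact fun s hs => (hder s (Ico_subset_Icc_self hs)).hasDerivWithinAt
    · show (1 + k) / (T' - t0) ≤ M t0
      rw [hT'0, div_div_eq_mul_div, mul_div_assoc, mul_comm, div_mul_eq_mul_div,
        mul_div_assoc, div_self (by positivity), mul_one]
    · exact fun s hs => (hd s (hsub s hs)).continuousAt.continuousWithinAt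
    · exact fun s hs => (hd s (hsub s (Ico_subset_Icc_self hs))).hasDerivWithinAt
    · intro s hs heq
      have hs1 : 0 < T' - s := by have := hs.2.trans hb.2; linarith
      have hs2 : T' - s < T - s := by linarith
      have hs3 : T' - s ≤ D := by rw [hD]; linarith [hs.1]
      refine lt_of_lt_of_le ?_ (hM s (hsub s (Ico_subset_Icc_self hs)))
      have heq' : M s = (1 + k) / (T' - s) := heq.symm
      rw [heq']
      have h4 : E / (T - s) ≤ E * D / (T' - s) ^ 2 := by
        rw [div_le_div_iff₀ (by linarith) (by positivity)]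
        have : (T' - s) ^ 2 ≤ D * (T - s) := by nlinarith
        calc E * (T' - s) ^ 2 ≤ E * (D * (T - s)) := mul_le_mul_of_nonneg_left this hE
          _ = E * D * (T - s) := by ring
      have h5 : ((1 + k) / (T' - s)) ^ 2 = (1 + k) ^ 2 / (T' - s) ^ 2 := by rw [div_pow]
      rw [h5]
      have h6 : (1 + k) / (T' - s) ^ 2 + E * D / (T' - s) ^ 2 < (1 + k) ^ 2 / (T' - s) ^ 2 := by
        rw [← add_div]
        apply div_lt_div_of_pos_right _ (by positivity)
        nlinarith
      linarith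
  -- contradiction at `T'`
  have hcont : ContinuousAt M T' := (hd T' ⟨h2.le, h3⟩).continuousAt
  have hlim : Tendsto (fun b => (T' - b) * M b) (𝓝[<] T') (𝓝 ((T' - T') * M T')) := by
    apply Tendsto.mono_left _ nhdsWithin_le_nhds
    exact (Tendsto.mul (by
      exact (continuous_const.sub continuous_id).tendsto T') hcont)
  have hge : ∀ᶠ b in 𝓝[<] T', 1 + k ≤ (T' - b) * M b := by
    filter_upwards [Ioo_mem_nhdsLT h2] with b hb
    have := key b ⟨hb.1.le, hb.2⟩
    rw [div_le_iff₀ (by linarith [hb.2])] at this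
    linarith
  have := ge_of_tendsto hlim hge
  rw [sub_self, zero_mul] at this
  linarith

lemma log_lower {M M' : ℝ → ℝ} {t1 t0 E : ℝ} (h10 : t1 ≤ t0) (ht : t0 < T)
    (hd : ∀ s ∈ Icc t1 t0, HasDerivAt M (M' s) s)
    (hM : ∀ s ∈ Icc t1 t0, -(E / (T - s)) ≤ M' s) :
    M t1 - E * Real.log ((T - t1) / (T - t0)) ≤ M t0 := by
  have hder : ∀ s ∈ Icc t1 t0, HasDerivAt (fun s => M s - E * Real.log (T - s))
      (M' s + E / (T - s)) s := by
    intro s hs
    have hs' : T - s ≠ 0 := by linarith [hs.2]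
    have e1 : HasDerivAt (fun s => T - s) (-1) s := (hasDerivAt_id s).const_sub T
    have e2 := (hd s hs).sub ((e1.log hs').const_mul E)
    refine HasDerivAt.congr_deriv (f := fun s => _) e2 ?_
    ring
  have hmono : MonotoneOn (fun s => M s - E * Real.log (T - s)) (Icc t1 t0) := by
    refine monotoneOn_of_deriv_nonneg (convex_Icc t1 t0) ?_ ?_ ?_
    · exact fun r hr => (hder r hr).continuousAt.continuousWithinAt
    · exact fun r hr => (hder r (interior_subset hr)).differentiableAt.differentiableWithinAt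
    · intro r hr
      rw [(hder r (interior_subset hr)).deriv]
      have := hM r (interior_subset hr)
      linarith
  have h1 := hmono (left_mem_Icc.mpr h10) (right_mem_Icc.mpr h10) h10
  simp only at h1
  have h2 : Real.log ((T - t1) / (T - t0)) = Real.log (T - t1) - Real.log (T - t0) :=
    Real.log_div (by linarith) (by linarith)
  rw [h2]
  linarith

/-- The constant of the asymptotic bounds. -/
noncomputable def C4 : ℝ := 840 * C2 + Real.sqrt C1

lemma C4_pos : 0 < C4 := by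
  have := C2_pos
  have := Real.sqrt_nonneg C1
  unfold C4; linarith

lemma Sol.abs_le_late (h : Sol T U) {s : ℝ} (hs : s ∈ Ioo 0 T) (h2 : T / 2 ≤ s) (x : ℝ) :
    |U (s, x)| ≤ C2 / (T - s) :=
  h.abs_le' hs (by linarith [hs.2]) (by linarith) le_rfl x

lemma Sol.sqrt_late (h : Sol T U) {s : ℝ} (hs : s ∈ Ioo 0 T) (h2 : T / 2 ≤ s) {l : ℝ}
    (hl : 0 ≤ l) : Real.sqrt (l * II U s) ≤ Real.sqrt (C1 * l) / (T - s) := by
  have hTs : 0 < T - s := by linarith [hs.2]
  have h1 := h.II_le hs hTs (by linarith) le_rfl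
  rw [le_div_iff₀ hTs]
  calc Real.sqrt (l * II U s) * (T - s) = Real.sqrt (l * II U s) * Real.sqrt ((T - s) ^ 2) := by
        rw [Real.sqrt_sq hTs.le]
    _ = Real.sqrt (l * II U s * (T - s) ^ 2) := by
        rw [Real.sqrt_mul (mul_nonneg hl (II_nonneg U s))]
    _ ≤ Real.sqrt (C1 * l) := by
        apply Real.sqrt_le_sqrt
        rw [le_div_iff₀ (by positivity)] at h1
        calc l * II U s * (T - s) ^ 2 = l * (II U s * (T - s) ^ 2) := by ring
          _ ≤ l * C1 := mul_le_mul_of_nonneg_left h1 hl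
          _ = C1 * l := by ring

lemma Sol.upper_l (h : Sol T U) {t : ℝ} (ht : t ∈ Ioo 0 T) (h2 : T / 2 ≤ t) {l : ℝ}
    (hl0 : 0 < l) (hl : l ≤ Real.pi) (x : ℝ) :
    (T - t) * U (t, x) ≤ 1 + 840 * C2 * (T - t) / l ^ 3 + Real.sqrt (C1 * l) := by
  have hTt : 0 < T - t := by linarith [ht.2]
  have hC2 := C2_pos
  have hin : ∀ s ∈ Ico t T, s ∈ Ioo 0 T := fun s hs => ⟨lt_of_lt_of_le ht.1 hs.1, hs.2⟩
  have h1 : (T - t) * avg U l x t ≤ 1 + 2 * (420 * C2 / l ^ 3) * (T - t) := by
    refine riccati_upper (M := avg U l x) ht.2 (by positivity)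
      (fun s hs => h.hasDerivAt_avg (hin s hs) hl0 x) ?_
    intro s hs
    have hTs : 0 < T - s := by linarith [hs.2]
    have := h.avg_deriv_ge (hin s hs) hl0 x (S := C2 / (T - s))
      (fun y => h.abs_le_late (hin s hs) (by linarith [hs.1]) y)
    refine le_trans (le_of_eq ?_) this
    congr 1
    field_simp
  have h3 := h.avg_close ht hl0 hl (c := x)
  have h4 := h.sqrt_late ht h2 hl0.le
  have h5 : U (t, x) ≤ avg U l x t + Real.sqrt (C1 * l) / (T - t) := by
    have := (le_abs_self _).trans h3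
    linarith
  calc (T - t) * U (t, x) ≤ (T - t) * (avg U l x t + Real.sqrt (C1 * l) / (T - t)) :=
        mul_le_mul_of_nonneg_left h5 hTt.le
    _ = (T - t) * avg U l x t + Real.sqrt (C1 * l) := by field_simp
    _ ≤ 1 + 2 * (420 * C2 / l ^ 3) * (T - t) + Real.sqrt (C1 * l) := by linarith
    _ = _ := by ring

lemma Sol.lower_l (h : Sol T U) {t : ℝ} (ht : t ∈ Ioo 0 T) (h2 : T / 2 ≤ t) {l : ℝ}
    (hl0 : 0 < l) (hl : l ≤ Real.pi) (x : ℝ) :
    -(2 * C2 * (T - t) / T + 420 * C2 * (T - t) * Real.log (T / (2 * (T - t))) / l ^ 3 +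
      Real.sqrt (C1 * l)) ≤ (T - t) * U (t, x) := by
  have hTt : 0 < T - t := by linarith [ht.2]
  have hT : 0 < T := ht.1.trans ht.2
  have hC2 := C2_pos
  have hin : ∀ s ∈ Icc (T / 2) t, s ∈ Ioo 0 T := fun s hs =>
    ⟨by linarith [hs.1], hs.2.trans_lt ht.2⟩
  have h1 : avg U l x (T / 2) - (420 * C2 / l ^ 3) * Real.log ((T - T / 2) / (T - t)) ≤
      avg U l x t := by
    refine log_lower (M := avg U l x) h2 ht.2 (fun s hs => h.hasDerivAt_avg (hin s hs) hl0 x) ?_
    intro s hs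
    have hTs : 0 < T - s := by linarith [hs.2, ht.2]
    have := h.avg_deriv_ge (hin s hs) hl0 x (S := C2 / (T - s))
      (fun y => h.abs_le_late (hin s hs) hs.1 y)
    refine le_trans ?_ this
    have e : 420 * (C2 / (T - s)) / l ^ 3 = 420 * C2 / l ^ 3 / (T - s) := by field_simp
    rw [e]
    nlinarith [sq_nonneg (avg U l x s)]
  have hTh : T / 2 ∈ Ioo 0 T := ⟨by linarith, by linarith⟩
  have h6 := h.abs_avg_le hTh hl0 x (fun y => h.abs_le_late hTh le_rfl y)
  have h7 : -(2 * C2 / T) ≤ avg U l x (T / 2) := by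
    have e : C2 / (T - T / 2) = 2 * C2 / T := by field_simp; ring
    rw [e] at h6
    exact (_root_.abs_le.mp h6).1
  have e2 : (T - T / 2) / (T - t) = T / (2 * (T - t)) := by field_simp; ring
  rw [e2] at h1
  have h3 := h.avg_close ht hl0 hl (c := x)
  have h4 := h.sqrt_late ht h2 hl0.le
  have h5 : avg U l x t - Real.sqrt (C1 * l) / (T - t) ≤ U (t, x) := by
    have := (neg_abs_le _).trans' (neg_le_neg h3)
    linarith
  have h8 : -(2 * C2 / T) - (420 * C2 / l ^ 3) * Real.log (T / (2 * (T - t))) -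
      Real.sqrt (C1 * l) / (T - t) ≤ U (t, x) := by linarith
  have h9 := mul_le_mul_of_nonneg_left h8 hTt.le
  refine le_trans (le_of_eq ?_) h9
  field_simp
  ring

lemma rpow_seventh {D : ℝ} (hD : 0 ≤ D) : (D ^ (1 / 7 : ℝ)) ^ 7 = D := by
  rw [← Real.rpow_natCast, ← Real.rpow_mul hD]
  norm_num

/-- Sharp upper bound. -/
lemma Sol.sharp_upper (h : Sol T U) {t : ℝ} (ht : t ∈ Ioo 0 T) (h2 : T / 2 ≤ t) (x : ℝ) :
    (T - t) * U (t, x) ≤ 1 + C4 * (T - t) ^ (1 / 7 : ℝ) := by
  have hTt : 0 < T - t := by linarith [ht.2]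
  have hC2 := C2_pos
  have hs1 := Real.sqrt_nonneg C1
  set r := (T - t) ^ (1 / 7 : ℝ) with hr
  have hr0 : 0 < r := Real.rpow_pos_of_pos hTt _
  have hr7 : r ^ 7 = T - t := rpow_seventh hTt.le
  rcases le_total r 1 with hr1 | hr1
  · have h3 := h.upper_l ht h2 (l := r ^ 2) (by positivity)
      (by nlinarith [Real.pi_gt_three]) x
    refine h3.trans ?_
    have e1 : 840 * C2 * (T - t) / (r ^ 2) ^ 3 = 840 * C2 * r := by
      rw [← hr7]; field_simp
    have e2 : Real.sqrt (C1 * r ^ 2) = Real.sqrt C1 * r := by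
      rw [Real.sqrt_mul C1_pos.le, Real.sqrt_sq hr0.le]
    rw [e1, e2]
    unfold C4
    linarith
  · have h3 := h.abs_le_late ht h2 x
    have h4 : (T - t) * U (t, x) ≤ C2 := by
      have h5 := (le_abs_self _).trans h3
      rw [le_div_iff₀ hTt] at h5
      linarith
    have h6 : C2 * 1 ≤ C4 * r := by
      apply mul_le_mul _ hr1 zero_le_one C4_pos.le
      unfold C4; linarith
    linarith

/-- Sharp lower bound. -/
lemma Sol.sharp_lower (h : Sol T U) {t : ℝ} (ht : t ∈ Ioo 0 T) (h2 : T / 2 ≤ t) (x : ℝ) :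
    -(C4 * ((T - t) / T + ((T - t) * (1 + Real.log (T / (T - t)))) ^ (1 / 7 : ℝ))) ≤
      (T - t) * U (t, x) := by
  have hTt : 0 < T - t := by linarith [ht.2]
  have hT : 0 < T := ht.1.trans ht.2
  have hC2 := C2_pos
  have hs1 := Real.sqrt_nonneg C1
  have hlog : 0 ≤ Real.log (T / (2 * (T - t))) := by
    apply Real.log_nonneg
    rw [le_div_iff₀ (by positivity)]
    linarith
  have hlog2 : Real.log (T / (2 * (T - t))) ≤ Real.log (T / (T - t)) := by
    apply Real.log_le_log (by positivity)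
    apply div_le_div_of_nonneg_left hT.le hTt (by linarith)
  set X := (T - t) * (1 + Real.log (T / (T - t))) with hX
  have hX0 : 0 < X := by
    rw [hX]
    apply mul_pos hTt
    linarith
  set r := X ^ (1 / 7 : ℝ) with hr
  have hr0 : 0 < r := Real.rpow_pos_of_pos hX0 _
  have hr7 : r ^ 7 = X := rpow_seventh hX0.le
  have hDT : 0 < (T - t) / T := by positivity
  rcases le_total r 1 with hr1 | hr1
  · have h3 := h.lower_l ht h2 (l := r ^ 2) (by positivity)
      (by nlinarith [Real.pi_gt_three]) x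
    refine le_trans (neg_le_neg ?_) h3
    have e1 : 420 * C2 * (T - t) * Real.log (T / (2 * (T - t))) / (r ^ 2) ^ 3 ≤
        420 * C2 * r := by
      rw [div_le_iff₀ (by positivity)]
      have : (T - t) * Real.log (T / (2 * (T - t))) ≤ X := by
        rw [hX]
        apply mul_le_mul_of_nonneg_left _ hTt.le
        linarith
      calc 420 * C2 * (T - t) * Real.log (T / (2 * (T - t)))
          = 420 * C2 * ((T - t) * Real.log (T / (2 * (T - t)))) := by ring
        _ ≤ 420 * C2 * X := mul_le_mul_of_nonneg_left this (by positivity)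
        _ = 420 * C2 * r * (r ^ 2) ^ 3 := by rw [← hr7]; ring
    have e2 : Real.sqrt (C1 * r ^ 2) = Real.sqrt C1 * r := by
      rw [Real.sqrt_mul C1_pos.le, Real.sqrt_sq hr0.le]
    rw [e2]
    have e3 : 2 * C2 * (T - t) / T ≤ C4 * ((T - t) / T) := by
      rw [mul_div_assoc]
      apply mul_le_mul_of_nonneg_right _ hDT.le
      unfold C4; linarith
    have e4 : 420 * C2 * r + Real.sqrt C1 * r ≤ C4 * r := by
      rw [← add_mul]
      apply mul_le_mul_of_nonneg_right _ hr0.le
      unfold C4; linarith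
    linarith
  · have h3 := h.abs_le_late ht h2 x
    have h4 : -C2 ≤ (T - t) * U (t, x) := by
      have h5 := (_root_.abs_le.mp h3).1
      have h6 := mul_le_mul_of_nonneg_left h5 hTt.le
      refine le_trans (le_of_eq ?_) h6
      field_simp
    have h6 : C2 * 1 ≤ C4 * r := by
      apply mul_le_mul _ hr1 zero_le_one C4_pos.le
      unfold C4; linarith
    have h7 : 0 ≤ C4 * ((T - t) / T) := mul_nonneg C4_pos.le hDT.le
    linarith

end Pool.Agent.Lib.MP_b879c5_an
end

section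
/-!
Lower bounds for solutions that blow up: the mean and the maximum.
-/
set_option autoImplicit false

namespace Pool.Agent.Lib.MP_b879c5_an

open Set MeasureTheory Filter
open scoped Topology ContDiff

variable {T : ℝ} {U : ℝ × ℝ → ℝ}

/-- unboundedness near `T` -/
def Blow (T : ℝ) (U : ℝ × ℝ → ℝ) : Prop :=
  ∀ M : ℝ, ∀ t₀ < T, ∃ t ∈ Ioo 0 T, t₀ < t ∧ ∃ x, M < |U (t, x)|

lemma Sol.energy_lower (h : Sol T U) (hb : Blow T U) {t : ℝ} (ht : t ∈ Ioo 0 T) :
    (1 / 81) / (T - t) ^ 2 ≤ II U t + JI U t := by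
  have hTt : 0 < T - t := by linarith [ht.2]
  have h1 := h.lower hb ht
  have hY : 0 ≤ II U t + JI U t := add_nonneg (II_nonneg U t) (JI_nonneg U t)
  rw [div_le_iff₀ (by positivity)]
  have h2 : (1 / 9 : ℝ) ^ 2 ≤ ((T - t) * Real.sqrt (II U t + JI U t)) ^ 2 :=
    pow_le_pow_left₀ (by norm_num) h1 2
  rw [mul_pow, Real.sq_sqrt hY] at h2
  linarith

/-- Lower bound for the mean of a blowing up solution. -/
lemma Sol.mean_lower (h : Sol T U) (hb : Blow T U) {t : ℝ} (ht : t ∈ Ioo 0 T) (h2 : T / 2 ≤ t) :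
    (1 / 81) / (T - t) - 13 / T ≤ mI U t := by
  have hT : 0 < T := ht.1.trans ht.2
  have hTt : 0 < T - t := by linarith [ht.2]
  have hin : ∀ s ∈ Icc (T / 2) t, s ∈ Ioo 0 T := fun s hs =>
    ⟨by linarith [hs.1], hs.2.trans_lt ht.2⟩
  have hder : ∀ s ∈ Icc (T / 2) t, HasDerivAt (fun s => mI U s - (1 / 81) / (T - s))
      ((II U s + JI U s) - (1 / 81) / (T - s) ^ 2) s := by
    intro s hs
    have hs' : T - s ≠ 0 := by linarith [(hin s hs).2]
    have e1 : HasDerivAt (fun s => T - s) (-1) s := (hasDerivAt_id s).const_sub T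
    have e2 := (h.hasDerivAt_m (hin s hs)).sub ((hasDerivAt_const s (1 / 81 : ℝ)).div e1 hs')
    refine HasDerivAt.congr_deriv (f := fun s => _) e2 ?_
    ring
  have hmono : MonotoneOn (fun s => mI U s - (1 / 81) / (T - s)) (Icc (T / 2) t) := by
    refine monotoneOn_of_deriv_nonneg (convex_Icc _ _) ?_ ?_ ?_
    · exact fun r hr => (hder r hr).continuousAt.continuousWithinAt
    · exact fun r hr => (hder r (interior_subset hr)).differentiableAt.differentiableWithinAt
    · intro r hr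
      rw [(hder r (interior_subset hr)).deriv]
      have := h.energy_lower hb (hin r (interior_subset hr))
      linarith
  have h1 := hmono (left_mem_Icc.mpr h2) (right_mem_Icc.mpr h2) h2
  simp only at h1
  have h3 := h.m_lower (hin (T / 2) (left_mem_Icc.mpr h2))
  have h4 : -(4 * Real.pi / T) ≤ mI U (T / 2) := by
    rw [← neg_div, div_le_iff₀ hT]
    linarith
  have h5 : (1 / 81 : ℝ) / (T - T / 2) = 2 / 81 / T := by field_simp; ring
  have h6 : 4 * Real.pi / T + 2 / 81 / T ≤ 13 / T := by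
    rw [← add_div]
    apply div_le_div_of_nonneg_right _ hT.le
    linarith [Real.pi_lt_d2]
  rw [h5] at h1
  linarith

/-- Growth of `∫ u_x²` under an upper bound for `u`. -/
lemma Sol.cubic_le (h : Sol T U) {t : ℝ} (ht : t ∈ Ioo 0 T) {M : ℝ} (hM : ∀ x, U (t, x) ≤ M) :
    ∫ x in (0)..(2 * Real.pi), U (t, x) * (Dx U (t, x)) ^ 2 ≤ M * II U t := by
  have hc0 := h.sm.continuous_x ht
  have hc1 := h.sm.dx.continuous_x ht
  unfold II
  rw [← intervalIntegral.integral_const_mul]
  apply intervalIntegral.integral_mono_on two_pi_pos'.le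
    ((hc0.mul (hc1.pow 2)).intervalIntegrable _ _)
    ((continuous_const.mul (hc1.pow 2)).intervalIntegrable _ _)
  intro x _
  exact mul_le_mul_of_nonneg_right (hM x) (sq_nonneg _)

/-- `∫ u²` is at most `(∫u)²/2π + 4π² ∫ u_x²`. -/
lemma Sol.JI_le_mean (h : Sol T U) {t : ℝ} (ht : t ∈ Ioo 0 T) :
    JI U t ≤ (mI U t) ^ 2 / (2 * Real.pi) + 4 * Real.pi ^ 2 * II U t := by
  have hc0 := h.sm.continuous_x ht
  have hpi := two_pi_pos'
  set m := mI U t with hm
  have h1 : ∫ x in (0)..(2 * Real.pi), (U (t, x) - m / (2 * Real.pi)) ^ 2 ≤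
      ∫ x in (0)..(2 * Real.pi), 2 * Real.pi * II U t := by
    have i1 : IntervalIntegrable (fun x => (U (t, x) - m / (2 * Real.pi)) ^ 2) volume 0
        (2 * Real.pi) := ((hc0.sub continuous_const).pow 2).intervalIntegrable _ _
    have i2 : IntervalIntegrable (fun _ : ℝ => 2 * Real.pi * II U t) volume 0
        (2 * Real.pi) := intervalIntegrable_const
    refine intervalIntegral.integral_mono_on hpi.le i1 i2 ?_
    intro x _
    have h2 := h.sub_mean_le ht x
    rw [← sq_abs]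
    calc |U (t, x) - m / (2 * Real.pi)| ^ 2 ≤ (Real.sqrt (2 * Real.pi * II U t)) ^ 2 :=
          pow_le_pow_left₀ (abs_nonneg _) h2 2
      _ = 2 * Real.pi * II U t := Real.sq_sqrt (mul_nonneg hpi.le (II_nonneg U t))
  rw [intervalIntegral.integral_const, smul_eq_mul, sub_zero] at h1
  have h3 : ∫ x in (0)..(2 * Real.pi), (U (t, x) - m / (2 * Real.pi)) ^ 2 =
      JI U t - m ^ 2 / (2 * Real.pi) := by
    have h4 : ∀ x, (U (t, x) - m / (2 * Real.pi)) ^ 2 = (U (t, x)) ^ 2 -
        m / Real.pi * U (t, x) + (m / (2 * Real.pi)) ^ 2 := by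
      intro x; field_simp; ring
    simp_rw [h4]
    have i1 : IntervalIntegrable (fun x => (U (t, x)) ^ 2) volume 0 (2 * Real.pi) :=
      (hc0.pow 2).intervalIntegrable _ _
    have i2 : IntervalIntegrable (fun x => m / Real.pi * U (t, x)) volume 0 (2 * Real.pi) :=
      (continuous_const.mul hc0).intervalIntegrable _ _
    rw [intervalIntegral.integral_add (i1.sub i2) intervalIntegrable_const,
      intervalIntegral.integral_sub i1 i2, intervalIntegral.integral_const_mul,
      intervalIntegral.integral_const, smul_eq_mul, sub_zero]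
    have h5 : ∫ x in (0)..(2 * Real.pi), U (t, x) = m := rfl
    have h6 : ∫ x in (0)..(2 * Real.pi), (U (t, x)) ^ 2 = JI U t := rfl
    rw [h5, h6]
    field_simp
    ring
  rw [h3] at h1
  have h7 : 2 * Real.pi * (2 * Real.pi * II U t) = 4 * Real.pi ^ 2 * II U t := by ring
  rw [h7] at h1
  linarith


/-- The supremum of `(T - t) u` is at least `1/2` in the limit superior. -/
lemma Sol.limsup_max (h : Sol T U) (hT : 0 < T) (hb : Blow T U) {q : ℝ} (hq0 : 0 < q)
    (hq : q < 1 / 2) {t₁ : ℝ} (ht₁ : t₁ < T) :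
    ∃ t ∈ Ioo 0 T, t₁ < t ∧ ∃ x, q < (T - t) * U (t, x) := by
  by_contra hcon
  push Not at hcon
  have hpi := Real.pi_pos
  -- choose a late initial time
  set c₀ : ℝ := 1 / 81 with hc₀
  obtain ⟨t₀, ht₀, h1, h2, h3⟩ : ∃ t₀ ∈ Ioo 0 T, t₁ < t₀ ∧ T / 2 ≤ t₀ ∧
      (T - t₀) * (13 / T) ≤ c₀ / 2 := by
    refine ⟨max ((t₁ + T) / 2) (T - T / 4212), ⟨?_, ?_⟩, ?_, ?_, ?_⟩
    · exact lt_max_of_lt_right (by linarith)
    · exact max_lt (by linarith) (by linarith)
    · exact lt_max_of_lt_left (by linarith)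
    · exact le_max_of_le_right (by linarith)
    · have h5 : T - max ((t₁ + T) / 2) (T - T / 4212) ≤ T / 4212 := by
        have := le_max_right ((t₁ + T) / 2) (T - T / 4212)
        linarith
      calc (T - max ((t₁ + T) / 2) (T - T / 4212)) * (13 / T) ≤ T / 4212 * (13 / T) := by
            apply mul_le_mul_of_nonneg_right h5 (by positivity)
        _ ≤ c₀ / 2 := by rw [hc₀]; field_simp; norm_num
  have hin : ∀ s ∈ Ico t₀ T, s ∈ Ioo 0 T := fun s hs => ⟨ht₀.1.trans_le hs.1, hs.2⟩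
  -- the mean is bounded below
  have hmean : ∀ s ∈ Ico t₀ T, c₀ / 2 ≤ (T - s) * mI U s := by
    intro s hs
    have hs' := hin s hs
    have hTs : 0 < T - s := by linarith [hs.2]
    have h6 := h.mean_lower hb hs' (h2.trans hs.1)
    have h7 := mul_le_mul_of_nonneg_left h6 hTs.le
    have h8 : (T - s) * (1 / 81 / (T - s) - 13 / T) = c₀ - (T - s) * (13 / T) := by
      rw [hc₀]; field_simp
    rw [h8] at h7
    have h9 : (T - s) * (13 / T) ≤ (T - t₀) * (13 / T) := by
      apply mul_le_mul_of_nonneg_right (by linarith [hs.1]) (by positivity)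
    linarith
  -- the pointwise upper bound
  have hub : ∀ s ∈ Ico t₀ T, ∀ x, U (s, x) ≤ q / (T - s) := by
    intro s hs x
    have hTs : 0 < T - s := by linarith [hs.2]
    rw [le_div_iff₀ hTs]
    have := hcon s (hin s hs) (h1.trans_le hs.1) x
    linarith
  have hmub : ∀ s ∈ Ico t₀ T, (T - s) * mI U s ≤ 2 * Real.pi * q := by
    intro s hs
    have hTs : 0 < T - s := by linarith [hs.2]
    have hc := h.sm.continuous_x (hin s hs)
    have h6 : mI U s ≤ ∫ _ in (0)..(2 * Real.pi), q / (T - s) := by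
      unfold mI
      refine intervalIntegral.integral_mono_on two_pi_pos'.le (hc.intervalIntegrable _ _)
        intervalIntegrable_const ?_
      intro x _
      exact hub s hs x
    rw [intervalIntegral.integral_const, smul_eq_mul, sub_zero] at h6
    calc (T - s) * mI U s ≤ (T - s) * (2 * Real.pi * (q / (T - s))) :=
          mul_le_mul_of_nonneg_left h6 hTs.le
      _ = 2 * Real.pi * q := by field_simp
  -- the functional
  set lam := (1 + 4 * Real.pi ^ 2) / (2 - 4 * q) with hlam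
  have h2q : 0 < 2 - 4 * q := by linarith
  have hlam0 : 0 < lam := by rw [hlam]; positivity
  set G : ℝ → ℝ := fun s => (T - s) * mI U s + lam * ((T - s) ^ 2 * II U s) with hG
  set G' : ℝ → ℝ := fun s => (-(mI U s) + (T - s) * (II U s + JI U s)) +
    lam * (-(2 * (T - s)) * II U s + (T - s) ^ 2 *
      (4 * ∫ x in (0)..(2 * Real.pi), U (s, x) * (Dx U (s, x)) ^ 2)) with hG'
  have hder : ∀ s ∈ Ico t₀ T, HasDerivAt G (G' s) s := by
    intro s hs
    have hs' := hin s hs
    have e1 : HasDerivAt (fun s => T - s) (-1) s := (hasDerivAt_id s).const_sub T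
    have e2 := e1.mul (h.hasDerivAt_m hs')
    have e3 := ((e1.pow 2).mul (h.hasDerivAt_I hs')).const_mul lam
    refine HasDerivAt.congr_deriv (f := G) (e2.add e3) ?_
    simp only [hG', Nat.cast_ofNat, Pi.pow_apply]
    ring
  have hneg : ∀ s ∈ Ico t₀ T, G' s ≤ -(c₀ / 4 / (T - s)) := by
    intro s hs
    have hs' := hin s hs
    have hTs : 0 < T - s := by linarith [hs.2]
    have a1 := h.cubic_le hs' (hub s hs)
    have a2 := h.JI_le_mean hs'
    have a3 := hmean s hs
    have a4 := hmub s hs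
    have hII := II_nonneg U s
    set m := mI U s with hm
    have hm0 : 0 < m := by
      by_contra hneg
      push Not at hneg
      have : (T - s) * m ≤ 0 := mul_nonpos_of_nonneg_of_nonpos hTs.le hneg
      rw [hc₀] at a3
      linarith
    -- first part
    have b1 : (T - s) * JI U s ≤ m * q + (T - s) * (4 * Real.pi ^ 2 * II U s) := by
      have b2 : (T - s) * (m ^ 2 / (2 * Real.pi)) ≤ m * q := by
        have b3 : (T - s) * (m ^ 2 / (2 * Real.pi)) = m * ((T - s) * m / (2 * Real.pi)) := by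
          field_simp
        rw [b3]
        apply mul_le_mul_of_nonneg_left _ hm0.le
        rw [div_le_iff₀ (by positivity)]
        linarith
      have b4 := mul_le_mul_of_nonneg_left a2 hTs.le
      rw [mul_add] at b4
      linarith
    have b5 : (T - s) ^ 2 * (4 * ∫ x in (0)..(2 * Real.pi), U (s, x) * (Dx U (s, x)) ^ 2) ≤
        4 * q * ((T - s) * II U s) := by
      have b6 := mul_le_mul_of_nonneg_left a1 (by positivity : (0:ℝ) ≤ 4 * (T - s) ^ 2)
      have b7 : 4 * (T - s) ^ 2 * (q / (T - s) * II U s) = 4 * q * ((T - s) * II U s) := by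
        field_simp
      rw [b7] at b6
      linarith
    have b8 : lam * (-(2 * (T - s)) * II U s + (T - s) ^ 2 *
      (4 * ∫ x in (0)..(2 * Real.pi), U (s, x) * (Dx U (s, x)) ^ 2)) ≤
        -((1 + 4 * Real.pi ^ 2) * ((T - s) * II U s)) := by
      have b9 : -(2 * (T - s)) * II U s + (T - s) ^ 2 *
          (4 * ∫ x in (0)..(2 * Real.pi), U (s, x) * (Dx U (s, x)) ^ 2) ≤
          -((2 - 4 * q) * ((T - s) * II U s)) := by linarith
      refine (mul_le_mul_of_nonneg_left b9 hlam0.le).trans (le_of_eq ?_)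
      rw [hlam]
      field_simp
    have b10 : c₀ / 4 / (T - s) ≤ m * (1 - q) := by
      rw [div_le_iff₀ hTs]
      have : c₀ / 4 ≤ (T - s) * m * (1 - q) := by
        have : (T - s) * m * (1 / 2) ≤ (T - s) * m * (1 - q) := by
          apply mul_le_mul_of_nonneg_left (by linarith) (by positivity)
        linarith
      linarith
    simp only [hG']
    rw [← hm]
    have b11 : (T - s) * (II U s + JI U s) = (T - s) * II U s + (T - s) * JI U s := by ring
    rw [b11]
    linarith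
  -- conclusion
  set K := c₀ / 4 with hK
  have hK0 : 0 < K := by rw [hK, hc₀]; norm_num
  have hanti : ∀ s ∈ Ico t₀ T, G s - K * Real.log (T - s) ≤ G t₀ - K * Real.log (T - t₀) := by
    intro s hs
    have hd2 : ∀ r ∈ Icc t₀ s, HasDerivAt (fun r => G r - K * Real.log (T - r))
        (G' r + K / (T - r)) r := by
      intro r hr
      have hr' : T - r ≠ 0 := by have := hr.2.trans_lt hs.2; linarith
      have e1 : HasDerivAt (fun s => T - s) (-1) r := (hasDerivAt_id r).const_sub T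
      have e2 := (hder r ⟨hr.1, hr.2.trans_lt hs.2⟩).sub ((e1.log hr').const_mul K)
      refine HasDerivAt.congr_deriv (f := fun s => _) e2 ?_
      ring
    have hA : AntitoneOn (fun r => G r - K * Real.log (T - r)) (Icc t₀ s) := by
      refine antitoneOn_of_deriv_nonpos (convex_Icc _ _) ?_ ?_ ?_
      · exact fun r hr => (hd2 r hr).continuousAt.continuousWithinAt
      · exact fun r hr => (hd2 r (interior_subset hr)).differentiableAt.differentiableWithinAt
      · intro r hr
        have hr := interior_subset hr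
        rw [(hd2 r hr).deriv]
        have := hneg r ⟨hr.1, hr.2.trans_lt hs.2⟩
        linarith
    exact hA (left_mem_Icc.mpr hs.1) (right_mem_Icc.mpr hs.1) hs.1
  have hGpos : ∀ s ∈ Ico t₀ T, 0 ≤ G s := by
    intro s hs
    have hTs : 0 < T - s := by linarith [hs.2]
    have a3 := hmean s hs
    have hII := II_nonneg U s
    have : 0 ≤ lam * ((T - s) ^ 2 * II U s) := by positivity
    simp only [hG]
    have : (0:ℝ) < c₀ := by rw [hc₀]; norm_num
    linarith
  -- evaluate at a late time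
  set B := G t₀ - K * Real.log (T - t₀) with hB
  set ε := min ((T - t₀) / 2) (Real.exp (-(B + 1) / K)) with hε
  have hTt₀ : 0 < T - t₀ := by linarith [ht₀.2]
  have hε0 : 0 < ε := lt_min (by linarith) (Real.exp_pos _)
  have hs : T - ε ∈ Ico t₀ T := by
    constructor
    · have : ε ≤ (T - t₀) / 2 := min_le_left _ _
      linarith
    · linarith
  have f1 := hanti _ hs
  have f2 := hGpos _ hs
  have f3 : T - (T - ε) = ε := by ring
  rw [f3] at f1
  have f4 : Real.log ε ≤ -(B + 1) / K := by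
    rw [Real.log_le_iff_le_exp hε0]
    exact min_le_right _ _
  have f5 : K * Real.log ε ≤ -(B + 1) := by
    calc K * Real.log ε ≤ K * (-(B + 1) / K) := mul_le_mul_of_nonneg_left f4 hK0.le
      _ = -(B + 1) := by field_simp
  linarith

end Pool.Agent.Lib.MP_b879c5_an
end
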